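import Pool.Agent.Helper57.BG.Basic

/-!
# Data of the prime type II sum and of the tiny type II sum
-/

open Finset

namespace Pool.Agent.Helper57.BG

/-- data of the prime type II sum -/
structure PD where
  k : ℤ
  Q1 : ℝ
  Q : ℝ
  P : ℝ
  L : ℝ
  M : ℝ
  D0 : ℝ
  R0 : ℝ
  K : ℕ
  QQ : Finset ℕ
  W : Finset ℕ
  LL : Finset ℕ
  b : ℕ → ℂ
  lam : ℕ → ℂ
  be : ℕ → ℂ

namespace PD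

/-- the hypotheses -/
structure Ok (p : PD) : Prop where
  hk0 : p.k ≠ 0
  hkD : |(p.k : ℝ)| < p.D0
  hQ1 : 1 ≤ p.Q1
  hQ : 1 ≤ p.Q
  hP : 1 ≤ p.P
  hM : 1 ≤ p.M
  hL : 2 * p.Q1 ≤ p.L
  hLR : p.L ≤ p.Q1 * p.Q * p.P
  hRM : p.Q1 * p.Q * p.P ≤ p.M
  hD0 : 1 ≤ p.D0
  hDP : p.D0 ≤ p.P
  hR0 : ∀ n : ℕ, 1 ≤ n → (n : ℝ) ≤ 16 * p.L * (p.Q1 * p.Q * p.P) → (n.divisors.card : ℝ) ≤ p.R0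
  hQQ : ∀ q ∈ p.QQ, Squarefree q ∧ p.Q < q ∧ (q : ℝ) ≤ 2 * p.Q ∧ q.primeFactors.card ≤ p.K ∧
    ∀ r : ℕ, r.Prime → r ∣ q → p.D0 ≤ r
  hW : ∀ w ∈ p.W, w.Prime ∧ p.P < w ∧ (w : ℝ) ≤ 2 * p.P
  hWQ : ∀ w ∈ p.W, ∀ q ∈ p.QQ, Nat.Coprime w q
  hLL : ∀ l ∈ p.LL, l.Prime ∧ p.L < l ∧ (l : ℝ) ≤ 2 * p.L
  hb : ∀ n, ‖p.b n‖ ≤ 1
  hlam : ∀ n, ‖p.lam n‖ ≤ 1
  hbe : ∀ n, ‖p.be n‖ ≤ 1

/-- the pairs `(q2, l)`, `q2 = q'' w`, as triples `(q'', w, l)` -/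
def I (p : PD) : Finset (ℕ × ℕ × ℕ) :=
  (p.QQ ×ˢ p.W ×ˢ p.LL).filter (fun i => ¬ i.2.2 ∣ i.1 * i.2.1)

/-- the coefficient -/
noncomputable def cc (p : PD) (i : ℕ × ℕ × ℕ) : ℂ := p.b i.1 * p.lam i.2.1 * p.be i.2.2

/-- the integers `q1` -/
noncomputable def Q1s (p : PD) : Finset ℕ := (Ioc ⌊p.Q1⌋₊ ⌊2 * p.Q1⌋₊).filter (fun q => Int.gcd p.k q = 1)

/-- the integers `m` -/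
noncomputable def Ms (p : PD) : Finset ℕ := Ioc ⌊p.M⌋₊ ⌊2 * p.M⌋₊

/-- the bracket -/
noncomputable def br (p : PD) (q1 : ℕ) (i i' : ℕ × ℕ × ℕ) : ℝ :=
  Br (4 * p.M * q1 / p.Q1) p.k q1 (i.1 * i.2.1) i.2.2 (i'.1 * i'.2.1) i'.2.2

/-- the number of frequencies -/
noncomputable def H (p : PD) : ℕ := ⌈4 * p.Q1 * (p.Q * p.P) ^ 2 / p.M⌉₊

/-- the number of `j` -/
noncomputable def J (p : PD) : ℕ := ⌊p.L / p.Q1⌋₊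

open Classical in
/-- the sum -/
noncomputable def S (p : PD) (a al : ℕ → ℂ) : ℂ :=
  ∑ q1 ∈ p.Q1s, a q1 * ∑ m ∈ p.Ms, al m * ∑ i ∈ p.I, p.cc i *
    ((if ((q1 * (i.1 * i.2.1) : ℕ) : ℤ) ∣ (m : ℤ) * i.2.2 - p.k then (1 : ℂ) else 0) -
      1 / ((i.1 * i.2.1 : ℕ) : ℂ) * (if (q1 : ℤ) ∣ (m : ℤ) * i.2.2 - p.k then (1 : ℂ) else 0))

/-- pairs with a common factor -/
noncomputable def Tb (p : PD) : ℝ := ∑ q1 ∈ p.Q1s, ∑ ii ∈ (p.I ×ˢ p.I).filter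
  (fun ii => ¬ Nat.Coprime (ii.1.1 * ii.1.2.1) (ii.2.1 * ii.2.2.1)), |p.br q1 ii.1 ii.2|

/-- coprime, `l ≠ l'`, `l ∣ q2'` -/
noncomputable def Tc (p : PD) : ℝ := ∑ q1 ∈ p.Q1s, ∑ ii ∈ (p.I ×ˢ p.I).filter
  (fun ii => Nat.Coprime (ii.1.1 * ii.1.2.1) (ii.2.1 * ii.2.2.1) ∧ ii.1.2.2 ≠ ii.2.2.2 ∧
    ii.1.2.2 ∣ ii.2.1 * ii.2.2.1), |p.br q1 ii.1 ii.2|

/-- coprime, `l = l'` -/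
noncomputable def Td (p : PD) : ℂ := ∑ q1 ∈ p.Q1s, ∑ ii ∈ (p.I ×ˢ p.I).filter
  (fun ii => Nat.Coprime (ii.1.1 * ii.1.2.1) (ii.2.1 * ii.2.2.1) ∧ ii.1.2.2 = ii.2.2.2),
    p.cc ii.1 * (starRingEnd ℂ) (p.cc ii.2) * ((p.br q1 ii.1 ii.2 : ℝ) : ℂ)

/-- coprime, `l ≠ l'`, `l ∤ q2'` -/
noncomputable def Te (p : PD) : ℂ := ∑ q1 ∈ p.Q1s, ∑ ii ∈ (p.I ×ˢ p.I).filter
  (fun ii => Nat.Coprime (ii.1.1 * ii.1.2.1) (ii.2.1 * ii.2.2.1) ∧ ii.1.2.2 ≠ ii.2.2.2 ∧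
    ¬ ii.1.2.2 ∣ ii.2.1 * ii.2.2.1),
    p.cc ii.1 * (starRingEnd ℂ) (p.cc ii.2) * ((p.br q1 ii.1 ii.2 : ℝ) : ℂ)

/-- the bound of `Te`, `C = |c| = |η k j|` -/
noncomputable def scE (p : PD) : ℝ :=
  2 * p.P * (8 * p.L * p.Q * p.P + 1) + 4 * p.P ^ 2 * ((8 / p.P + 1) * (p.H * p.J * |(p.k : ℝ)| * p.P) +
    2 ^ (p.K + 4) * (16 * p.L * p.Q * p.P ^ 2) ^ (3 / 4 : ℝ) * (p.H * p.J * |(p.k : ℝ)| * p.P) ^ (1 / 4 : ℝ) *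
      (1 + Real.log (16 * p.L * p.Q * p.P ^ 2)))

end PD

/-- data of the tiny type II sum -/
structure TD where
  k : ℤ
  q1 : ℕ
  Q : ℝ
  P : ℝ
  X : ℝ
  M : ℝ
  D0 : ℝ
  R0 : ℝ
  K : ℕ
  QQ : Finset ℕ
  W : Finset ℕ
  XX : Finset ℕ
  b : ℕ → ℂ
  lam : ℕ → ℂ
  be : ℕ → ℂ

namespace TD

/-- the hypotheses -/
structure Ok (p : TD) : Prop where
  hk0 : p.k ≠ 0
  hkD : |(p.k : ℝ)| < p.D0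
  hq1 : 1 ≤ p.q1
  hkq : Int.gcd p.k p.q1 = 1
  hQ : 1 ≤ p.Q
  hP : 1 ≤ p.P
  hM : 1 ≤ p.M
  hX : 1 ≤ p.X
  hXQ : p.X ≤ p.Q * p.P
  hRM : p.q1 * p.Q * p.P ≤ p.M
  hD0 : 1 ≤ p.D0
  hDP : p.D0 ≤ p.P
  hR0 : ∀ n : ℕ, 1 ≤ n → (n : ℝ) ≤ 16 * p.Q * p.P → (n.divisors.card : ℝ) ≤ p.R0
  hQQ : ∀ q ∈ p.QQ, Squarefree q ∧ p.Q < q ∧ (q : ℝ) ≤ 2 * p.Q ∧ q.primeFactors.card ≤ p.K ∧
    ∀ r : ℕ, r.Prime → r ∣ q → p.D0 ≤ r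
  hW : ∀ w ∈ p.W, w.Prime ∧ p.P < w ∧ (w : ℝ) ≤ 2 * p.P
  hWQ : ∀ w ∈ p.W, ∀ q ∈ p.QQ, Nat.Coprime w q
  hXX : ∀ x ∈ p.XX, p.X < x ∧ (x : ℝ) ≤ 2 * p.X ∧ Nat.Coprime x p.q1
  hXQW : ∀ x ∈ p.XX, ∀ q ∈ p.QQ, ∀ w ∈ p.W, Nat.Coprime x (q * w) ∨ x ∣ q * w
  hb : ∀ n, ‖p.b n‖ ≤ 1
  hlam : ∀ n, ‖p.lam n‖ ≤ 1
  hbe : ∀ n, ‖p.be n‖ ≤ 1

/-- the pairs `(q2, x)`, `q2 = q'' w`, as triples `(q'', w, x)` -/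
def I (p : TD) : Finset (ℕ × ℕ × ℕ) :=
  (p.QQ ×ˢ p.W ×ˢ p.XX).filter (fun i => Nat.Coprime i.2.2 (i.1 * i.2.1))

/-- the coefficient -/
noncomputable def cc (p : TD) (i : ℕ × ℕ × ℕ) : ℂ := p.b i.1 * p.lam i.2.1 * p.be i.2.2

/-- the integers `m` -/
noncomputable def Ms (p : TD) : Finset ℕ := Ioc ⌊p.M⌋₊ ⌊2 * p.M⌋₊

/-- the bracket -/
noncomputable def br (p : TD) (i i' : ℕ × ℕ × ℕ) : ℝ :=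
  Br (4 * p.M) p.k p.q1 (i.1 * i.2.1) i.2.2 (i'.1 * i'.2.1) i'.2.2

/-- the number of frequencies -/
noncomputable def H (p : TD) : ℕ := ⌈4 * p.q1 * (p.Q * p.P) ^ 2 / p.M⌉₊

open Classical in
/-- the sum -/
noncomputable def S (p : TD) (al : ℕ → ℂ) : ℂ :=
  ∑ m ∈ p.Ms, al m * ∑ i ∈ p.I, p.cc i *
    ((if ((p.q1 * (i.1 * i.2.1) : ℕ) : ℤ) ∣ (m : ℤ) * i.2.2 - p.k then (1 : ℂ) else 0) -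
      1 / ((i.1 * i.2.1 : ℕ) : ℂ) * (if (p.q1 : ℤ) ∣ (m : ℤ) * i.2.2 - p.k then (1 : ℂ) else 0))

/-- pairs with a common factor -/
noncomputable def Sb (p : TD) : ℝ := ∑ ii ∈ (p.I ×ˢ p.I).filter
  (fun ii => ¬ Nat.Coprime (ii.1.1 * ii.1.2.1) (ii.2.1 * ii.2.2.1)), |p.br ii.1 ii.2|

/-- coprime, `x ≠ x'`, `x ∣ q2'`, `x' ∣ q2` -/
noncomputable def Sc (p : TD) : ℝ := ∑ ii ∈ (p.I ×ˢ p.I).filter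
  (fun ii => Nat.Coprime (ii.1.1 * ii.1.2.1) (ii.2.1 * ii.2.2.1) ∧ ii.1.2.2 ≠ ii.2.2.2 ∧
    ii.1.2.2 ∣ ii.2.1 * ii.2.2.1 ∧ ii.2.2.2 ∣ ii.1.1 * ii.1.2.1), |p.br ii.1 ii.2|

/-- coprime, `x = x'` -/
noncomputable def Sd (p : TD) : ℂ := ∑ ii ∈ (p.I ×ˢ p.I).filter
  (fun ii => Nat.Coprime (ii.1.1 * ii.1.2.1) (ii.2.1 * ii.2.2.1) ∧ ii.1.2.2 = ii.2.2.2),
    p.cc ii.1 * (starRingEnd ℂ) (p.cc ii.2) * ((p.br ii.1 ii.2 : ℝ) : ℂ)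

open Classical in
/-- coprime, `x ≠ x'`, `(x, q2') = 1`, and `(x', q2)` in a set `Z` of pairs (all, or not coprime) -/
noncomputable def Se (p : TD) (Z : ℕ → ℕ → Prop) : ℂ := ∑ ii ∈ (p.I ×ˢ p.I).filter
  (fun ii => Nat.Coprime (ii.1.1 * ii.1.2.1) (ii.2.1 * ii.2.2.1) ∧ ii.1.2.2 ≠ ii.2.2.2 ∧
    Nat.Coprime ii.1.2.2 (ii.2.1 * ii.2.2.1) ∧ Z ii.2.2.2 (ii.1.1 * ii.1.2.1)),
    p.cc ii.1 * (starRingEnd ℂ) (p.cc ii.2) * ((p.br ii.1 ii.2 : ℝ) : ℂ)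

/-- the bound of the second Cauchy inequality, `C = |c| ≤ H |k| X` -/
noncomputable def scE (p : TD) : ℝ :=
  2 * p.P * (4 * p.Q * p.P / p.X + 1) + 4 * p.P ^ 2 *
    ((4 / (p.X * p.P) + 1) * (p.H * |(p.k : ℝ)| * p.X * p.P) +
    2 ^ (p.K + 3) * (8 * p.Q * p.P ^ 2) ^ (3 / 4 : ℝ) * (p.H * |(p.k : ℝ)| * p.X * p.P) ^ (1 / 4 : ℝ) *
      (1 + Real.log (8 * p.Q * p.P ^ 2)))

end TD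

end Pool.Agent.Helper57.BG
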