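import Pool.Agent.Helper57.BG.Data

/-!
# The statements of the blocks G2-G13 as propositions (to be used as hypotheses)
-/

open Finset

set_option linter.unusedVariables false

namespace Pool.Agent.Helper57.BG

/-- statement of `K1` -/
def Stmt_K1 : Prop :=
  ∀ (p : ℕ) [Fact p.Prime] (a b : ZMod p) (h : ¬ (a = 0 ∧ b = 0)),
    ‖kl p a b‖ ≤ 2 * (p : ℝ) ^ (3 / 4 : ℝ)

/-- statement of `K2` -/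
def Stmt_K2 : Prop :=
  ∀ (V : ℕ) [NeZero V] (hV : Squarefree V) (a b : ℤ),
    ‖kl V (a : ZMod V) (b : ZMod V)‖ ≤ 2 ^ V.primeFactors.card * (V : ℝ) ^ (3 / 4 : ℝ) *
      ((Nat.gcd (Int.gcd a b) V : ℕ) : ℝ) ^ (1 / 4 : ℝ)

/-- statement of `K3` -/
def Stmt_K3 : Prop :=
  ∀ (V h : ℕ) (hV : Squarefree V) (hh : 0 < h) (hhV : Nat.Coprime h V) (c ρ A : ℤ) (N : ℕ),
    ‖∑ n ∈ (Ioc A (A + N)).filter (fun n => n ≡ ρ [ZMOD h] ∧ IsCoprime n (V : ℤ)), ph V c n‖ ≤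
      ((N : ℝ) / (h * V) + 1) * (Int.gcd c V : ℕ) +
        2 ^ (V.primeFactors.card + 1) * (V : ℝ) ^ (3 / 4 : ℝ) * ((Int.gcd c V : ℕ) : ℝ) ^ (1 / 4 : ℝ) *
          (1 + Real.log V)

/-- statement of `SC` -/
def Stmt_SC : Prop :=
  ∀ (W : Finset ℕ) (P : ℝ) (hP : 1 ≤ P) (hW : ∀ w ∈ W, w.Prime ∧ P < w ∧ (w : ℝ) ≤ 2 * P)
    (V h N : ℕ) (hV : Squarefree V) (hh : 0 < h) (hhV : Nat.Coprime h V)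
    (hVW : ∀ w ∈ W, Nat.Coprime w V) (hhW : ∀ w ∈ W, Nat.Coprime w h)
    (c a : ℤ) (ρ : ℕ) (hc : c ≠ 0) (haV : Int.gcd a V = 1) (haW : ∀ w ∈ W, Int.gcd a w = 1)
    (lam : ℕ → ℂ) (hlam : ∀ w, ‖lam w‖ ≤ 1),
    ∑ n ∈ (Icc 1 N).filter (fun n => n ≡ ρ [MOD h] ∧ Nat.Coprime n V),
      ‖∑ w ∈ W.filter (fun w => Nat.Coprime w n), lam w * ph (V * w) c (a * n)‖ ^ 2 ≤
      scb W.card N h V P |(c : ℝ)| V.primeFactors.card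

/-- statement of `SC0` -/
def Stmt_SC0 : Prop :=
  ∀ (W : Finset ℕ) (P : ℝ) (hP : 1 ≤ P) (hW : ∀ w ∈ W, P < w ∧ (w : ℝ) ≤ 2 * P)
    (x N : ℕ) (hx : 0 < x) (c a : ℤ) (ha : Int.gcd a x = 1)
    (lam : ℕ → ℂ) (hlam : ∀ w, ‖lam w‖ ≤ 1),
    ∑ n ∈ (Icc 1 N).filter (fun n => Nat.Coprime n x),
      ‖∑ w ∈ W.filter (fun w => Nat.Coprime w x), lam w * ph x c (a * n * w)‖ ^ 2 ≤
      ((N : ℝ) + x) * (W.card + W.card * (P * (Int.gcd c x : ℕ) / x))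

/-- statement of `AB` -/
def Stmt_AB : Prop :=
  ∀ (W : Finset ℕ) (P : ℝ) (hP : 1 ≤ P) (hW : ∀ w ∈ W, P < w ∧ (w : ℝ) ≤ 2 * P)
    (F : ℝ → ℂ) (B : ℝ) (hB : ∀ s, P < s → s ≤ 2 * P → ‖F s‖ ≤ B)
    (hF : ∀ s t, P < s → s ≤ 2 * P → P < t → t ≤ 2 * P → ‖F s - F t‖ ≤ B * |s - t| / P) (a : ℕ → ℂ),
    ‖∑ w ∈ W, F w * a w‖ ^ 2 ≤ 2 * B ^ 2 * ‖∑ w ∈ W, a w‖ ^ 2 +
      2 * B ^ 2 / P * ∑ t ∈ Ioc ⌊P⌋₊ ⌊2 * P⌋₊, ‖∑ w ∈ W.filter (fun w => w ≤ t), a w‖ ^ 2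

/-- statement of `FFx` -/
def Stmt_FFx : Prop :=
  ∀ (A u P θ : ℝ) (hA : 0 ≤ A) (hu : 0 < u) (hP : 1 ≤ P) (hθ : |θ| ≤ P) (η : ℤ),
    (∀ s, P < s → s ≤ 2 * P → ‖(FF A η (u * s) : ℂ) * ee (θ / s)‖ ≤ 8 * A / (u * P)) ∧
    (∀ s t, P < s → s ≤ 2 * P → P < t → t ≤ 2 * P →
      ‖(FF A η (u * s) : ℂ) * ee (θ / s) - (FF A η (u * t) : ℂ) * ee (θ / t)‖ ≤
        8 * A / (u * P) * |s - t| / P)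

/-- statement of `FJ` -/
def Stmt_FJ : Prop :=
  ∀ (Y : ℝ) (hY : 0 < Y) (q : ℕ) (hq : 0 < q) (m0 : ℤ) (H : ℕ) (hH : (q : ℝ) / Y ≤ H),
    HasSum (fun j : ℤ => ((fj Y (m0 + q * j) : ℝ) : ℂ))
      (∑ η ∈ Icc (-(H : ℤ)) H, ((FF Y η q : ℝ) : ℂ) * ee (η * m0 / q))

/-- statement of `fj_lower` -/
def Stmt_fj_lower : Prop :=
  ∀ (Y m : ℝ) (hY : 0 < Y) (hm : |m| ≤ Y / 2),
    4 / Real.pi ^ 2 ≤ fj Y m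

/-- statement of `FJ_exact` -/
def Stmt_FJ_exact : Prop :=
  ∀ (Y : ℝ) (q : ℕ) (hq : 0 < q) (hqY : (q : ℝ) ≤ Y) (m0 : ℤ),
    HasSum (fun j : ℤ => fj Y (m0 + q * j)) (Y / q)

/-- statement of `FJ_le` -/
def Stmt_FJ_le : Prop :=
  ∀ (Y : ℝ) (hY : 0 < Y) (q : ℕ) (hq : 0 < q) (m0 : ℤ),
    Summable (fun j : ℤ => fj Y (m0 + q * j)) ∧ ∑' j : ℤ, fj Y (m0 + q * j) ≤ Y / q + 1

/-- statement of `br0` -/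
def Stmt_br0 : Prop :=
  ∀ (Y : ℝ) (k : ℤ) (q1 q2 l q2' l' : ℕ) (hk : Int.gcd k q1 = 1)
    (h : ¬ (q1 : ℤ) ∣ (l' : ℤ) - l),
    Br Y k q1 q2 l q2' l' = 0

/-- statement of `brB` -/
def Stmt_brB : Prop :=
  ∀ (Y : ℝ) (hY : 0 < Y) (k : ℤ) (q1 q2 l q2' l' : ℕ) (h1 : 0 < q1) (h2 : 0 < q2) (h2' : 0 < q2')
    (hl : 0 < l) (hl' : 0 < l')
    (hk : Int.gcd k (q1 * q2 : ℕ) = 1) (hk' : Int.gcd k (q1 * q2' : ℕ) = 1)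
    (hY1 : ((q1 * q2 : ℕ) : ℝ) ≤ Y) (hY2 : ((q1 * q2' : ℕ) : ℝ) ≤ Y),
    |Br Y k q1 q2 l q2' l'| ≤
      (if ((q1 * Nat.gcd q2 q2' : ℕ) : ℤ) ∣ (l' : ℤ) - l then
        Y * (Nat.gcd q2 q2' : ℕ) / ((q1 : ℝ) * q2 * q2') + 1 else 0) +
      (if (q1 : ℤ) ∣ (l' : ℤ) - l then 3 * (Y / ((q1 : ℝ) * q2 * q2')) else 0)

/-- statement of `br_symm` -/
def Stmt_br_symm : Prop :=
  ∀ (Y : ℝ) (k : ℤ) (q1 q2 l q2' l' : ℕ),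
    Br Y k q1 q2' l' q2 l = Br Y k q1 q2 l q2' l'

/-- statement of `brE` -/
def Stmt_brE : Prop :=
  ∀ (Y : ℝ) (hY : 0 < Y) (k : ℤ) (q1 q2 l q2' l' : ℕ) (j : ℤ) (H : ℕ)
    (h1 : 0 < q1) (h2 : 0 < q2) (h2' : 0 < q2') (hl : 0 < l) (hl' : 0 < l')
    (hlq1 : Nat.Coprime l q1) (hlq1' : Nat.Coprime l' q1) (hqq : Nat.Coprime q2 q2')
    (hlq2 : Nat.Coprime l q2) (hlq2' : Nat.Coprime l' q2') (hll : Nat.Coprime l l')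
    (hj : (l' : ℤ) - l = q1 * j) (hY1 : ((q1 * q2 : ℕ) : ℝ) ≤ Y) (hY2 : ((q1 * q2' : ℕ) : ℝ) ≤ Y)
    (hH : (q1 : ℝ) * q2 * q2' / Y ≤ H),
    ((Br Y k q1 q2 l q2' l' : ℝ) : ℂ) = ∑ η ∈ (Icc (-(H : ℤ)) H).erase 0,
      ((FF (Y / q1) η (q2 * q2') : ℝ) : ℂ) * ee (η * k / (l * q1 * q2 * q2')) *
        ph (l * q2') (-(η * k * j)) (l' * q2)

/-- statement of `brS` -/
def Stmt_brS : Prop :=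
  ∀ (Y : ℝ) (hY : 0 < Y) (k : ℤ) (q1 q2 x q2' x' : ℕ) (j : ℤ) (H : ℕ)
    (h1 : 0 < q1) (h2 : 0 < q2) (h2' : 0 < q2') (hx : 0 < x) (hx' : 0 < x')
    (hxq1 : Nat.Coprime x q1) (hxq1' : Nat.Coprime x' q1) (hqq : Nat.Coprime q2 q2')
    (hxq2 : Nat.Coprime x q2) (hxq2' : Nat.Coprime x' q2') (hxx : Nat.Coprime x q2')
    (hj : (x' : ℤ) - x = q1 * j) (hY1 : ((q1 * q2 : ℕ) : ℝ) ≤ Y) (hY2 : ((q1 * q2' : ℕ) : ℝ) ≤ Y)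
    (hH : (q1 : ℝ) * q2 * q2' / Y ≤ H),
    ((Br Y k q1 q2 x q2' x' : ℝ) : ℂ) = ∑ η ∈ (Icc (-(H : ℤ)) H).erase 0,
      ((FF (Y / q1) η (q2 * q2') : ℝ) : ℂ) * ee (η * k / (x * q1 * q2 * q2')) *
        ph x (-(η * k)) (q1 * q2 * q2') * ph q2' (-(η * k * j)) (x * x' * q2)

open Classical in
/-- statement of `open1` -/
def Stmt_open1 : Prop :=
  ∀ (Y M : ℝ) (hM : 1 ≤ M) (hY : 4 * M ≤ Y) (k : ℤ) (q1 : ℕ) (h1 : 0 < q1)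
    {ι : Type} (I : Finset ι) (c : ι → ℂ) (q2 l : ι → ℕ) (h2 : ∀ i ∈ I, 0 < q2 i) (hl : ∀ i ∈ I, 0 < l i),
    ∑ m ∈ Ioc ⌊M⌋₊ ⌊2 * M⌋₊, ‖∑ i ∈ I, c i *
        ((if ((q1 * q2 i : ℕ) : ℤ) ∣ (m : ℤ) * l i - k then (1 : ℂ) else 0) -
          1 / (q2 i : ℂ) * (if (q1 : ℤ) ∣ (m : ℤ) * l i - k then (1 : ℂ) else 0))‖ ^ 2 ≤
      Real.pi ^ 2 / 4 * (∑ i ∈ I, ∑ i' ∈ I, c i * (starRingEnd ℂ) (c i') *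
        ((Br Y k q1 (q2 i) (l i) (q2 i') (l i') : ℝ) : ℂ)).re

/-- statement of `SCF` -/
def Stmt_SCF : Prop :=
  ∀ (W : Finset ℕ) (P : ℝ) (hP : 1 ≤ P) (hW : ∀ w ∈ W, w.Prime ∧ P < w ∧ (w : ℝ) ≤ 2 * P)
    (V h N : ℕ) (hV : Squarefree V) (hh : 0 < h) (hhV : Nat.Coprime h V)
    (hVW : ∀ w ∈ W, Nat.Coprime w V) (hhW : ∀ w ∈ W, Nat.Coprime w h)
    (c a : ℤ) (ρ : ℕ) (hc : c ≠ 0) (haV : Int.gcd a V = 1) (haW : ∀ w ∈ W, Int.gcd a w = 1)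
    (lam : ℕ → ℂ) (hlam : ∀ w, ‖lam w‖ ≤ 1)
    {ι : Type} [DecidableEq ι] (X : Finset ι) (nn : ι → ℕ) (R0 B : ℝ)
    (hX : ∀ x ∈ X, 1 ≤ nn x ∧ nn x ≤ N ∧ nn x ≡ ρ [MOD h] ∧ Nat.Coprime (nn x) V)
    (hmult : ∀ n, ((X.filter (fun x => nn x = n)).card : ℝ) ≤ R0)
    (F : ι → ℝ → ℂ) (hB : ∀ x ∈ X, ∀ s, P < s → s ≤ 2 * P → ‖F x s‖ ≤ B)
    (hF : ∀ x ∈ X, ∀ s t, P < s → s ≤ 2 * P → P < t → t ≤ 2 * P → ‖F x s - F x t‖ ≤ B * |s - t| / P),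
    (∑ x ∈ X, ‖∑ w ∈ W.filter (fun w => Nat.Coprime w (nn x)), lam w * F x w * ph (V * w) c (a * nn x)‖) ^ 2 ≤
      X.card * (6 * B ^ 2 * R0 * scb (2 * P) N h V P |(c : ℝ)| V.primeFactors.card)

/-- statement of `SC0F` -/
def Stmt_SC0F : Prop :=
  ∀ (W : Finset ℕ) (P : ℝ) (hP : 1 ≤ P) (hW : ∀ w ∈ W, P < w ∧ (w : ℝ) ≤ 2 * P)
    (v N : ℕ) (hv : 0 < v) (c a : ℤ) (ha : Int.gcd a v = 1)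
    (lam : ℕ → ℂ) (hlam : ∀ w, ‖lam w‖ ≤ 1)
    {ι : Type} [DecidableEq ι] (X : Finset ι) (nn w1 : ι → ℕ) (R0 B : ℝ) (hB0 : 0 ≤ B)
    (hX : ∀ x ∈ X, 1 ≤ nn x ∧ nn x ≤ N ∧ Nat.Coprime (nn x) v)
    (hmult : ∀ n, ((X.filter (fun x => nn x = n)).card : ℝ) ≤ R0)
    (F : ι → ℝ → ℂ) (hB : ∀ x ∈ X, ∀ s, P < s → s ≤ 2 * P → ‖F x s‖ ≤ B)
    (hF : ∀ x ∈ X, ∀ s t, P < s → s ≤ 2 * P → P < t → t ≤ 2 * P → ‖F x s - F x t‖ ≤ B * |s - t| / P),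
    (∑ x ∈ X, ‖∑ w ∈ W.filter (fun w => Nat.Coprime w v ∧ w ≠ w1 x),
        lam w * F x w * ph v c (a * nn x * w)‖) ^ 2 ≤
      2 * X.card * (6 * B ^ 2 * R0 * (((N : ℝ) + v) * (2 * P + 2 * P * (P * (Int.gcd c v : ℕ) / v)))) +
        2 * (X.card : ℝ) ^ 2 * B ^ 2

end Pool.Agent.Helper57.BG
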