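import Pool.Agent.Helper57.BG.P5c

/-!
# P5: the pairs with `l ≠ l'`
-/

open Finset

namespace Pool.Agent.Helper57.BG.PD

variable {p : PD}

open Classical in
lemma Te_eq : p.Te = ∑ l ∈ p.LL, ∑ q ∈ p.QQ, ∑ x ∈ p.XO, ∑ w ∈ p.W,
    (if Cnd l q x w then p.cc (x.2.1, x.2.2.1, l) * (starRingEnd ℂ) (p.cc (q, w, x.2.2.2)) *
      ((p.br x.1 (x.2.1, x.2.2.1, l) (q, w, x.2.2.2) : ℝ) : ℂ) else 0) := by
  have hR : ∑ l ∈ p.LL, ∑ q ∈ p.QQ, ∑ x ∈ p.XO, ∑ w ∈ p.W,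
      (if Cnd l q x w then p.cc (x.2.1, x.2.2.1, l) * (starRingEnd ℂ) (p.cc (q, w, x.2.2.2)) *
        ((p.br x.1 (x.2.1, x.2.2.1, l) (q, w, x.2.2.2) : ℝ) : ℂ) else 0) =
      ∑ y ∈ (p.LL ×ˢ p.QQ ×ˢ p.XO ×ˢ p.W).filter (fun y => Cnd y.1 y.2.1 y.2.2.1 y.2.2.2),
        p.cc (y.2.2.1.2.1, y.2.2.1.2.2.1, y.1) * (starRingEnd ℂ) (p.cc (y.2.1, y.2.2.2, y.2.2.1.2.2.2)) *
        ((p.br y.2.2.1.1 (y.2.2.1.2.1, y.2.2.1.2.2.1, y.1) (y.2.1, y.2.2.2, y.2.2.1.2.2.2) : ℝ) : ℂ) := by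
    rw [sum_filter, sum_product]
    refine sum_congr rfl (fun l _ => ?_)
    rw [sum_product]
    refine sum_congr rfl (fun q _ => ?_)
    rw [sum_product]
  rw [hR, Te, ← sum_product' p.Q1s ((p.I ×ˢ p.I).filter
    (fun ii => Nat.Coprime (ii.1.1 * ii.1.2.1) (ii.2.1 * ii.2.2.1) ∧ ii.1.2.2 ≠ ii.2.2.2 ∧
      ¬ ii.1.2.2 ∣ ii.2.1 * ii.2.2.1)) (fun q1 ii => p.cc ii.1 * (starRingEnd ℂ) (p.cc ii.2) *
        ((p.br q1 ii.1 ii.2 : ℝ) : ℂ))]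
  refine sum_nbij'
    (fun z => (z.2.1.2.2, z.2.2.1, (z.1, z.2.1.1, z.2.1.2.1, z.2.2.2.2), z.2.2.2.1))
    (fun y => (y.2.2.1.1, ((y.2.2.1.2.1, y.2.2.1.2.2.1, y.1), (y.2.1, y.2.2.2, y.2.2.1.2.2.2)))) ?_ ?_ ?_ ?_ ?_
  · rintro ⟨q1, ⟨qa, wa, l⟩, ⟨q, w, l'⟩⟩ hz
    simp only [I, mem_product, mem_filter] at hz
    rw [mem_filter]
    simp only [mem_product, XO, Cnd]
    tauto
  · rintro ⟨l, q, ⟨q1, qa, wa, l'⟩, w⟩ hz
    rw [mem_filter] at hz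
    simp only [mem_product, XO, Cnd] at hz
    simp only [I, mem_product, mem_filter]
    tauto
  · rintro ⟨q1, ⟨qa, wa, l⟩, ⟨q, w, l'⟩⟩ hz
    rfl
  · rintro ⟨l, q, ⟨q1, qa, wa, l'⟩, w⟩ hz
    rfl
  · rintro ⟨q1, ⟨qa, wa, l⟩, ⟨q, w, l'⟩⟩ hz
    rfl

lemma Ok.q2 (h : p.Ok) {q w : ℕ} (hq : q ∈ p.QQ) (hw : w ∈ p.W) :
    0 < q * w ∧ ((q * w : ℕ) : ℝ) ≤ 4 * (p.Q * p.P) := by
  have c2 := h.hQQ _ hq
  have c3 := h.hW _ hw
  have hQ := h.hQ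
  have hP := h.hP
  have d2 : (0 : ℝ) < q := by linarith [c2.2.1]
  have d3 : (0 : ℝ) < w := by linarith [c3.2.1]
  constructor
  · have : (0 : ℝ) < ((q * w : ℕ) : ℝ) := by push_cast; positivity
    exact_mod_cast this
  · push_cast
    calc (q : ℝ) * w ≤ (2 * p.Q) * (2 * p.P) := mul_le_mul c2.2.2.1 c3.2.2 d3.le (by linarith)
      _ = 4 * (p.Q * p.P) := by ring

lemma Ok.term_eq (h0 : Stmt_br0) (hE : Stmt_brE) (h : p.Ok) {l q : ℕ} (hl : l ∈ p.LL) (hq : q ∈ p.QQ)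
    {x : ℕ × ℕ × ℕ × ℕ} (hx : x ∈ p.XO) {w : ℕ} (hw : w ∈ p.W) (hc : Cnd l q x w) :
    p.cc (x.2.1, x.2.2.1, l) * (starRingEnd ℂ) (p.cc (q, w, x.2.2.2)) *
      ((p.br x.1 (x.2.1, x.2.2.1, l) (q, w, x.2.2.2) : ℝ) : ℂ) =
    ∑ j ∈ (Icc (-(p.J : ℤ)) p.J).erase 0, ∑ η ∈ (Icc (-(p.H : ℤ)) p.H).erase 0,
      (if (x.2.2.2 : ℤ) - l = x.1 * j then p.TT η j l q x w else 0) := by
  obtain ⟨q1, qa, wa, l'⟩ := x
  simp only [XO, mem_product] at hx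
  obtain ⟨h1, h2, h3, h4⟩ := hx
  simp only [Cnd] at hc
  obtain ⟨c1, c2, c3, c4, c5⟩ := hc
  have hlp := h.hLL l hl
  have hlp' := h.hLL l' h4
  obtain ⟨hq1, hq1a, hq1b, hq1c⟩ := h.q1_pos h1
  have hQ1 := h.hQ1
  have hQ := h.hQ
  have hP := h.hP
  have hM := h.hM
  have hL2 := h.L2
  have hq1r : (0 : ℝ) < q1 := by exact_mod_cast hq1
  by_cases hdiv : (q1 : ℤ) ∣ (l' : ℤ) - l
  · obtain ⟨j0, hj0⟩ := hdiv
    have hj0' : j0 ≠ 0 := by
      rintro rfl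
      apply c4
      have : (l' : ℤ) = l := by linarith
      exact_mod_cast this.symm
    have hj0J : |(j0 : ℝ)| ≤ p.J := by
      have e1 : |((l' : ℝ) - l)| < p.L := by
        rw [abs_lt]
        constructor <;> linarith [hlp.2.1, hlp.2.2, hlp'.2.1, hlp'.2.2]
      have e2 : ((l' : ℝ) - l) = q1 * j0 := by exact_mod_cast hj0
      rw [e2, abs_mul, abs_of_pos hq1r] at e1
      have e3 : |(j0 : ℝ)| ≤ p.L / p.Q1 := by
        rw [le_div_iff₀ (by linarith)]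
        have : |(j0 : ℝ)| * p.Q1 ≤ |(j0 : ℝ)| * q1 := mul_le_mul_of_nonneg_left hq1a.le (abs_nonneg _)
        linarith
      have e4 : j0.natAbs ≤ ⌊p.L / p.Q1⌋₊ := by
        apply Nat.le_floor
        rw [Nat.cast_natAbs]
        push_cast
        exact e3
      have e5 : (j0.natAbs : ℝ) ≤ (p.J : ℝ) := by
        unfold J
        exact_mod_cast e4
      rw [Nat.cast_natAbs] at e5
      push_cast at e5
      exact e5
    have hmem : j0 ∈ (Icc (-(p.J : ℤ)) p.J).erase 0 := by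
      rw [mem_erase, mem_Icc]
      refine ⟨hj0', ?_⟩
      have : |j0| ≤ (p.J : ℤ) := by exact_mod_cast hj0J
      exact abs_le.1 this
    rw [sum_eq_single_of_mem j0 hmem]
    · have hY : (0 : ℝ) < 4 * p.M * q1 / p.Q1 := by positivity
      obtain ⟨a1, a2⟩ := h.q2 h2 h3
      obtain ⟨b1, b2⟩ := h.q2 hq hw
      have hlq1 : Nat.Coprime l q1 := by
        rw [Nat.Prime.coprime_iff_not_dvd hlp.1]
        intro hd
        have := Nat.le_of_dvd hq1 hd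
        have : (l : ℝ) ≤ q1 := by exact_mod_cast this
        linarith [hlp.2.1, h.hL]
      have hlq1' : Nat.Coprime l' q1 := by
        rw [Nat.Prime.coprime_iff_not_dvd hlp'.1]
        intro hd
        have := Nat.le_of_dvd hq1 hd
        have : (l' : ℝ) ≤ q1 := by exact_mod_cast this
        linarith [hlp'.2.1, h.hL]
      have hYb : ∀ u : ℕ, (u : ℝ) ≤ 4 * (p.Q * p.P) → ((q1 * u : ℕ) : ℝ) ≤ 4 * p.M * q1 / p.Q1 := by
        intro u hu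
        rw [le_div_iff₀ (by linarith)]
        push_cast
        have : (q1 : ℝ) * u * p.Q1 ≤ q1 * (4 * (p.Q * p.P)) * p.Q1 := by
          apply mul_le_mul_of_nonneg_right _ (by linarith)
          exact mul_le_mul_of_nonneg_left hu hq1r.le
        have h5 : q1 * (4 * (p.Q1 * p.Q * p.P)) ≤ q1 * (4 * p.M) :=
          mul_le_mul_of_nonneg_left (by linarith [h.hRM]) hq1r.le
        linarith
      have hkey := hE (4 * p.M * q1 / p.Q1) hY p.k q1 (qa * wa) l (q * w) l' j0 p.H hq1 a1 b1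
        hlp.1.pos hlp'.1.pos hlq1 hlq1' c3 ((Nat.Prime.coprime_iff_not_dvd hlp.1).2 c1)
        ((Nat.Prime.coprime_iff_not_dvd hlp'.1).2 c2) ((Nat.coprime_primes hlp.1 hlp'.1).2 c4) hj0
        (hYb _ a2) (hYb _ b2)
        (by
          have e1 : (q1 : ℝ) * ((qa * wa : ℕ) : ℝ) * ((q * w : ℕ) : ℝ) / (4 * p.M * q1 / p.Q1) =
              p.Q1 * (((qa * wa : ℕ) : ℝ) * ((q * w : ℕ) : ℝ)) / (4 * p.M) := by
            field_simp
          rw [e1]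
          have e2 : ((qa * wa : ℕ) : ℝ) * ((q * w : ℕ) : ℝ) ≤ (4 * (p.Q * p.P)) * (4 * (p.Q * p.P)) :=
            mul_le_mul a2 b2 (by positivity) (by positivity)
          unfold H
          refine le_trans ?_ (Nat.le_ceil _)
          rw [div_le_div_iff₀ (by positivity) (by positivity)]
          have e3 : p.Q1 * (((qa * wa : ℕ) : ℝ) * ((q * w : ℕ) : ℝ)) ≤
              p.Q1 * ((4 * (p.Q * p.P)) * (4 * (p.Q * p.P))) := mul_le_mul_of_nonneg_left e2 (by linarith)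
          have e4 := mul_le_mul_of_nonneg_right e3 (by linarith : (0 : ℝ) ≤ p.M)
          nlinarith)
      have hbr : ((p.br q1 (qa, wa, l) (q, w, l') : ℝ) : ℂ) = _ := hkey
      rw [hbr, mul_sum]
      refine sum_congr rfl (fun η _ => ?_)
      rw [if_pos hj0]
      unfold TT
      have e1 : 4 * p.M * q1 / p.Q1 / q1 = 4 * p.M / p.Q1 := by
        field_simp
      rw [e1]
    · intro j hj hne
      refine sum_eq_zero (fun η _ => ?_)
      rw [if_neg]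
      intro he
      apply hne
      have : (q1 : ℤ) * j = q1 * j0 := by
        have h5 : (l' : ℤ) - l = q1 * j := he
        rw [← h5, hj0]
      exact mul_left_cancel₀ (by exact_mod_cast hq1.ne') this
  · have hz := h0 (4 * p.M * q1 / p.Q1) p.k q1 (qa * wa) l (q * w) l' hq1c hdiv
    have hbr : p.br q1 (qa, wa, l) (q, w, l') = 0 := hz
    rw [hbr]
    simp only [Complex.ofReal_zero, mul_zero]
    symm
    refine sum_eq_zero (fun j _ => sum_eq_zero (fun η _ => ?_))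
    rw [if_neg]
    intro he
    exact hdiv ⟨j, he⟩

lemma card_Icc_erase (n : ℕ) : ((((Icc (-(n : ℤ)) n).erase 0).card : ℕ) : ℝ) = 2 * n := by
  rw [card_erase_of_mem (by simp), Int.card_Icc]
  have : ((n : ℤ) + 1 - -(n : ℤ)).toNat - 1 = 2 * n := by omega
  rw [this]
  push_cast
  ring

theorem p5 (h0 : Stmt_br0) (hE : Stmt_brE) (hF : Stmt_FFx) (hS : Stmt_SCF)
    (p : PD) (h : p.Ok) (hH : (p.H : ℝ) * |(p.k : ℝ)| ≤ p.L) :
    ‖p.Te‖ ≤ 16 * p.H * p.J * p.L * p.Q * (32 * p.M / (p.Q1 * (p.Q * p.P) ^ 2)) *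
      Real.sqrt (48 * p.L * p.Q * p.P * p.R0 * p.scE) := by
  classical
  rw [Te_eq]
  have key : ∀ l ∈ p.LL, ∀ q ∈ p.QQ, ‖∑ x ∈ p.XO, ∑ w ∈ p.W,
      (if Cnd l q x w then p.cc (x.2.1, x.2.2.1, l) * (starRingEnd ℂ) (p.cc (q, w, x.2.2.2)) *
        ((p.br x.1 (x.2.1, x.2.2.1, l) (q, w, x.2.2.2) : ℝ) : ℂ) else 0)‖ ≤
      (2 * p.J) * ((2 * p.H) * p.KE) := by
    intro l hl q hq
    have e1 : ∑ x ∈ p.XO, ∑ w ∈ p.W,
      (if Cnd l q x w then p.cc (x.2.1, x.2.2.1, l) * (starRingEnd ℂ) (p.cc (q, w, x.2.2.2)) *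
        ((p.br x.1 (x.2.1, x.2.2.1, l) (q, w, x.2.2.2) : ℝ) : ℂ) else 0) =
        ∑ x ∈ p.XO, ∑ w ∈ p.W, ∑ j ∈ (Icc (-(p.J : ℤ)) p.J).erase 0, ∑ η ∈ (Icc (-(p.H : ℤ)) p.H).erase 0,
          (if Cnd l q x w ∧ (x.2.2.2 : ℤ) - l = x.1 * j then p.TT η j l q x w else 0) := by
      refine sum_congr rfl (fun x hx => sum_congr rfl (fun w hw => ?_))
      by_cases hc : Cnd l q x w
      · rw [if_pos hc, h.term_eq h0 hE hl hq hx hw hc]
        simp only [hc, true_and]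
      · rw [if_neg hc]
        simp only [hc, false_and, if_false, sum_const_zero]
    have e2 : ∑ x ∈ p.XO, ∑ w ∈ p.W, ∑ j ∈ (Icc (-(p.J : ℤ)) p.J).erase 0, ∑ η ∈ (Icc (-(p.H : ℤ)) p.H).erase 0,
          (if Cnd l q x w ∧ (x.2.2.2 : ℤ) - l = x.1 * j then p.TT η j l q x w else 0) =
        ∑ j ∈ (Icc (-(p.J : ℤ)) p.J).erase 0, ∑ η ∈ (Icc (-(p.H : ℤ)) p.H).erase 0, ∑ x ∈ p.XO, ∑ w ∈ p.W,
          (if Cnd l q x w ∧ (x.2.2.2 : ℤ) - l = x.1 * j then p.TT η j l q x w else 0) := by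
      have a1 : ∀ x ∈ p.XO, ∑ w ∈ p.W, ∑ j ∈ (Icc (-(p.J : ℤ)) p.J).erase 0, ∑ η ∈ (Icc (-(p.H : ℤ)) p.H).erase 0,
          (if Cnd l q x w ∧ (x.2.2.2 : ℤ) - l = x.1 * j then p.TT η j l q x w else 0) =
          ∑ j ∈ (Icc (-(p.J : ℤ)) p.J).erase 0, ∑ η ∈ (Icc (-(p.H : ℤ)) p.H).erase 0, ∑ w ∈ p.W,
          (if Cnd l q x w ∧ (x.2.2.2 : ℤ) - l = x.1 * j then p.TT η j l q x w else 0) := by
        intro x _
        rw [sum_comm]
        refine sum_congr rfl (fun j _ => ?_)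
        rw [sum_comm]
      rw [sum_congr rfl a1, sum_comm]
      refine sum_congr rfl (fun j _ => ?_)
      rw [sum_comm]
    rw [e1, e2]
    refine (norm_sum_le _ _).trans ?_
    have hb : ∀ j ∈ (Icc (-(p.J : ℤ)) p.J).erase 0, ‖∑ η ∈ (Icc (-(p.H : ℤ)) p.H).erase 0, ∑ x ∈ p.XO, ∑ w ∈ p.W,
          (if Cnd l q x w ∧ (x.2.2.2 : ℤ) - l = x.1 * j then p.TT η j l q x w else 0)‖ ≤ (2 * p.H) * p.KE := by
      intro j hj
      rw [mem_erase, mem_Icc] at hj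
      have hjJ : |(j : ℝ)| ≤ p.J := by
        have : |j| ≤ (p.J : ℤ) := abs_le.2 hj.2
        exact_mod_cast this
      refine (norm_sum_le _ _).trans ?_
      have hb2 : ∀ η ∈ (Icc (-(p.H : ℤ)) p.H).erase 0, ‖∑ x ∈ p.XO, ∑ w ∈ p.W,
          (if Cnd l q x w ∧ (x.2.2.2 : ℤ) - l = x.1 * j then p.TT η j l q x w else 0)‖ ≤ p.KE := by
        intro η hη
        rw [mem_erase, mem_Icc] at hη
        have hηH : |(η : ℝ)| ≤ p.H := by
          have : |η| ≤ (p.H : ℤ) := abs_le.2 hη.2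
          exact_mod_cast this
        exact core hS hF h hH hη.1 hηH hj.1 hjJ hl hq
      refine (sum_le_sum hb2).trans ?_
      rw [sum_const, nsmul_eq_mul, card_Icc_erase]
    refine (sum_le_sum hb).trans ?_
    rw [sum_const, nsmul_eq_mul, card_Icc_erase]
  have hKE := KE_nonneg h
  refine (norm_sum_le _ _).trans ?_
  calc ∑ l ∈ p.LL, ‖∑ q ∈ p.QQ, ∑ x ∈ p.XO, ∑ w ∈ p.W,
      (if Cnd l q x w then p.cc (x.2.1, x.2.2.1, l) * (starRingEnd ℂ) (p.cc (q, w, x.2.2.2)) *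
        ((p.br x.1 (x.2.1, x.2.2.1, l) (q, w, x.2.2.2) : ℝ) : ℂ) else 0)‖
      ≤ ∑ l ∈ p.LL, ∑ q ∈ p.QQ, (2 * p.J) * ((2 * p.H) * p.KE) := by
        refine sum_le_sum (fun l hl => (norm_sum_le _ _).trans (sum_le_sum (fun q hq => key l hl q hq)))
    _ = (p.LL.card : ℝ) * (p.QQ.card * ((2 * p.J) * ((2 * p.H) * p.KE))) := by
        rw [sum_const, sum_const, nsmul_eq_mul, nsmul_eq_mul]
    _ ≤ (2 * p.L) * ((2 * p.Q) * ((2 * p.J) * ((2 * p.H) * p.KE))) := by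
        have h1 := h.cardLL
        have h2 := h.cardQQ
        have hQ := h.hQ
        have hL2 := h.L2
        refine mul_le_mul h1 (mul_le_mul_of_nonneg_right h2 (by positivity)) (by positivity) (by linarith)
    _ = 16 * p.H * p.J * p.L * p.Q * (32 * p.M / (p.Q1 * (p.Q * p.P) ^ 2)) *
      Real.sqrt (48 * p.L * p.Q * p.P * p.R0 * p.scE) := by
        unfold KE
        ring

end Pool.Agent.Helper57.BG.PD
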