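import Pool.Agent.Helper8.AP.Kl
import Pool.Agent.Helper62.AP.SC
import Pool.Agent.Helper62.AP.P4
import Pool.Agent.Helper26.AP.AB
import Pool.Agent.Helper26.AP.SC0F
import Pool.Agent.Helper4.BG.FFx
import Pool.Agent.Helper4.BG.Br
import Pool.Agent.Helper9.BG.Br
import Pool.Agent.Helper49.AP.FJ
import Pool.Agent.Helper5.AP.Open1
import Pool.Agent.Helper5.AP.T6
import Pool.Agent.Helper34.AP.P1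
import Pool.Agent.Helper34.AP.T1
import Pool.Agent.Helper10.AP.T2
import Pool.Agent.Helper53.AP.T3P3
import Pool.Agent.Helper64.AP.T4
import Pool.Agent.Helper97.AP.T5
import Pool.Agent.Helper57.BG.P5
import Pool.Agent.Helper88.AP.K3
import Pool.Agent.Helper90.AP.P2
import Pool.Agent.Helper65.AP.P6

/-!
# The two type II estimates, assembled
-/

open Finset

namespace Pool.Agent.Helper57.BG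

theorem stBr0 : Stmt_br0 := Pool.Agent.Helper9.BG.br0

theorem stBrB : Stmt_brB := Pool.Agent.Helper9.BG.brB Pool.Agent.Helper49.AP.fJ_exact Pool.Agent.Helper49.AP.fJ_le

theorem stBrE : Stmt_brE := Pool.Agent.Helper4.BG.brE Pool.Agent.Helper49.AP.fJ Pool.Agent.Helper49.AP.fJ_exact

theorem stBrS : Stmt_brS := Pool.Agent.Helper4.BG.brS Pool.Agent.Helper49.AP.fJ Pool.Agent.Helper49.AP.fJ_exact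

theorem stFFx : Stmt_FFx := Pool.Agent.Helper4.BG.FFx

theorem stSC0F : Stmt_SC0F := Pool.Agent.Helper26.AP.sc0f

theorem stK3 : Stmt_K3 := Pool.Agent.Helper88.AP.stmt_K3

theorem stSCF : Stmt_SCF := Pool.Agent.Helper62.AP.stmt_SCF stK3 Pool.Agent.Helper26.AP.ab

theorem stOpen : Stmt_open1 := Pool.Agent.Helper5.AP.open1_stmt

/-- the tiny type II sum -/
theorem tIIS : ∃ T0 : ℝ, 1 ≤ T0 ∧ ∀ T ≥ T0, ∀ (k : ℤ) (q1 : ℕ) (Q P X M : ℝ) (QQ W XX : Finset ℕ)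
    (al b lam be : ℕ → ℂ), k ≠ 0 → |(k : ℝ)| ≤ T ^ (1 / 1000000 : ℝ) → 1 ≤ q1 → Int.gcd k q1 = 1 →
    1 ≤ Q → T ^ (3 / 50 : ℝ) / 2 ≤ P → P ≤ T ^ (3 / 50 + 1 / 1000000 : ℝ) →
    T ^ (1 / 2000 : ℝ) / 2 ≤ X → X ≤ T ^ (131 / 10000 : ℝ) →
    (q1 : ℝ) ≤ T ^ (1 / 1000000 : ℝ) →
    T ^ (1 / 2 : ℝ) / 8 ≤ q1 * Q * P → q1 * Q * P ≤ T ^ (1 / 2 + 1 / 1000000 : ℝ) →
    T ^ (9 / 10 : ℝ) ≤ M * X → M * X ≤ T ^ (1 + 1 / 1000000 : ℝ) →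
    (∀ q ∈ QQ, Squarefree q ∧ Q < q ∧ (q : ℝ) ≤ 2 * Q ∧ q.primeFactors.card ≤ 7 ∧
      ∀ r : ℕ, r.Prime → r ∣ q → T ^ (1 / 100 : ℝ) ≤ r) →
    (∀ w ∈ W, w.Prime ∧ P < w ∧ (w : ℝ) ≤ 2 * P) → (∀ w ∈ W, ∀ q ∈ QQ, Nat.Coprime w q) →
    (∀ x ∈ XX, X < x ∧ (x : ℝ) ≤ 2 * X ∧ Nat.Coprime x q1) →
    (∀ x ∈ XX, ∀ q ∈ QQ, ∀ w ∈ W, Nat.Coprime x (q * w) ∨ x ∣ q * w) →
    (∀ n, ‖al n‖ ≤ 1) → (∀ n, ‖b n‖ ≤ 1) → (∀ n, ‖lam n‖ ≤ 1) → (∀ n, ‖be n‖ ≤ 1) →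
    ∀ D0 R0 : ℝ, ‖(⟨k, q1, Q, P, X, M, D0, R0, 7, QQ, W, XX, b, lam, be⟩ : TD).S al‖ ≤
      T ^ (1 + 6 / 1000000 : ℝ) * X ^ (-(1 / 4) : ℝ) + T ^ (1 - 3 / 1000 : ℝ) :=
  Pool.Agent.Helper5.AP.TIIS_of
    (fun p h al hal => Pool.Agent.Helper34.AP.t1 stOpen p h al hal)
    (fun p h => Pool.Agent.Helper10.AP.t2 stBrB p h)
    (fun p h => Pool.Agent.Helper53.AP.t3 stBrB p h)
    (fun p h hH => Pool.Agent.Helper64.AP.t4 p stBrS stFFx stSC0F h hH)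
    (fun p h hXP hH Z => Pool.Agent.Helper97.AP.t5 stBrS stBr0 stFFx stSCF p h hXP hH Z)

/-- the prime type II sum -/
theorem tIIP : ∃ T0 : ℝ, 1 ≤ T0 ∧ ∀ T ≥ T0, ∀ (k : ℤ) (Q1 Q P L M : ℝ) (QQ W LL : Finset ℕ)
    (a al b lam be : ℕ → ℂ), k ≠ 0 → |(k : ℝ)| ≤ T ^ (1 / 1000000 : ℝ) →
    T ^ (1 / 100 : ℝ) / 2 ≤ Q1 → T ^ (1 / 100 : ℝ) / 2 ≤ Q →
    T ^ (3 / 50 : ℝ) / 2 ≤ P → P ≤ T ^ (3 / 50 + 1 / 1000000 : ℝ) →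
    T ^ (1 / 1000 : ℝ) ≤ L / Q1 → L / Q1 ≤ T ^ (3 / 250 : ℝ) → L ≤ T ^ (41 / 100 : ℝ) →
    T ^ (1 / 2 : ℝ) / 8 ≤ Q1 * Q * P → Q1 * Q * P ≤ T ^ (1 / 2 + 1 / 1000000 : ℝ) →
    T ^ (1 - 1 / 1000000 : ℝ) ≤ M * L → M * L ≤ T ^ (1 + 1 / 1000000 : ℝ) →
    (∀ q ∈ QQ, Squarefree q ∧ Q < q ∧ (q : ℝ) ≤ 2 * Q ∧ q.primeFactors.card ≤ 7 ∧
      ∀ r : ℕ, r.Prime → r ∣ q → T ^ (1 / 100 : ℝ) ≤ r) →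
    (∀ w ∈ W, w.Prime ∧ P < w ∧ (w : ℝ) ≤ 2 * P) → (∀ w ∈ W, ∀ q ∈ QQ, Nat.Coprime w q) →
    (∀ l ∈ LL, l.Prime ∧ L < l ∧ (l : ℝ) ≤ 2 * L) →
    (∀ n, ‖a n‖ ≤ 1) → (∀ n, ‖al n‖ ≤ 1) → (∀ n, ‖b n‖ ≤ 1) → (∀ n, ‖lam n‖ ≤ 1) → (∀ n, ‖be n‖ ≤ 1) →
    ∀ D0 R0 : ℝ, ‖(⟨k, Q1, Q, P, L, M, D0, R0, 7, QQ, W, LL, b, lam, be⟩ : PD).S a al‖ ≤
      T ^ (1 - 1 / 1000000 : ℝ) :=
  Pool.Agent.Helper65.AP.TIIP_of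
    (fun p h a al ha hal => Pool.Agent.Helper34.AP.p1 stOpen p h a al ha hal)
    (fun p h => Pool.Agent.Helper90.AP.p2 stBrB h)
    (fun p h => Pool.Agent.Helper53.AP.p3 stBrB p h)
    (fun p h hH => Pool.Agent.Helper62.AP.p4 stFFx stBrS stSC0F p h hH)
    (fun p h hH => Pool.Agent.Helper57.BG.PD.p5 stBr0 stBrE stFFx stSCF p h hH)

end Pool.Agent.Helper57.BG
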