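import Mathlib

/-!
# Type II sums to structured moduli beyond one half: definitions
-/

open Finset

namespace Pool.Agent.Helper57.BG

/-- `e(x) = exp(2 π i x)` -/
noncomputable def ee (x : ℝ) : ℂ := Complex.exp (2 * Real.pi * x * Complex.I)

/-- `e(c n̄ / V)`, where `n̄` is the inverse of `n` modulo `V` -/
noncomputable def ph (V : ℕ) (c n : ℤ) : ℂ :=
  Complex.exp (2 * Real.pi * Complex.I * ((c * (((n : ZMod V)⁻¹).val : ℤ) : ℤ) : ℂ) / (V : ℂ))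

/-- the Kloosterman sum -/
noncomputable def kl (V : ℕ) [NeZero V] (a b : ZMod V) : ℂ :=
  ∑ x : (ZMod V)ˣ, ZMod.stdAddChar (a * (x : ZMod V) + b * ((x⁻¹ : (ZMod V)ˣ) : ZMod V))

/-- the Fejér weight -/
noncomputable def fj (Y m : ℝ) : ℝ := (Real.sinc (Real.pi * m / Y)) ^ 2

/-- `F_η(s) = (A/s) (1 - |η| A/s)_+` -/
noncomputable def FF (A : ℝ) (η : ℤ) (s : ℝ) : ℝ := A / s * max 0 (1 - |(η : ℝ)| * (A / s))

open Classical in
/-- `∑ fj(m)` over the integers `m` with `m l ≡ k (u)`, `m l' ≡ k (u')` -/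
noncomputable def NN (Y : ℝ) (k : ℤ) (u l u' l' : ℕ) : ℝ :=
  ∑' m : ℤ, if (u : ℤ) ∣ m * l - k ∧ (u' : ℤ) ∣ m * l' - k then fj Y m else 0

/-- the dispersion bracket of the pairs `(q2, l)`, `(q2', l')` -/
noncomputable def Br (Y : ℝ) (k : ℤ) (q1 q2 l q2' l' : ℕ) : ℝ :=
  NN Y k (q1 * q2) l (q1 * q2') l' - 1 / (q2' : ℝ) * NN Y k (q1 * q2) l q1 l'
    - 1 / (q2 : ℝ) * NN Y k q1 l (q1 * q2') l' + 1 / ((q2 : ℝ) * q2') * NN Y k q1 l q1 l'

/-- the bound of the second Cauchy inequality; `C = |c|` -/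
noncomputable def scb (w N h V P C : ℝ) (om : ℕ) : ℝ :=
  w * (N / h + 1) + w ^ 2 * ((N / (h * V * P ^ 2) + 1) * (C * P) +
    2 ^ (om + 3) * (4 * V * P ^ 2) ^ (3 / 4 : ℝ) * (C * P) ^ (1 / 4 : ℝ) *
      (1 + Real.log (4 * V * P ^ 2)))

end Pool.Agent.Helper57.BG
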