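import Pool.Agent.Helper57.BG.Stmts

/-!
# P5, preparations: counting, and the comparison of `scb` with `scE`
-/

open Finset

namespace Pool.Agent.Helper57.BG.PD

variable {p : PD}

lemma card_le57 {S : Finset ℕ} {Z : ℝ} (hZ : 1 ≤ Z) (h : ∀ n ∈ S, Z < n ∧ (n : ℝ) ≤ 2 * Z) :
    (S.card : ℝ) ≤ 2 * Z := by
  have h1 : S ⊆ Icc 1 ⌊2 * Z⌋₊ := by
    intro n hn
    obtain ⟨h2, h3⟩ := h n hn
    rw [mem_Icc]
    refine ⟨?_, Nat.le_floor h3⟩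
    have : (0 : ℝ) < n := by linarith
    exact_mod_cast this
  calc (S.card : ℝ) ≤ ((Icc 1 ⌊2 * Z⌋₊).card : ℝ) := by exact_mod_cast card_le_card h1
    _ = (⌊2 * Z⌋₊ : ℝ) := by simp
    _ ≤ 2 * Z := Nat.floor_le (by linarith)

lemma Ok.cardLL (h : p.Ok) : (p.LL.card : ℝ) ≤ 2 * p.L := by
  refine card_le57 ?_ (fun n hn => (h.hLL n hn).2)
  linarith [h.hL, h.hQ1]

lemma Ok.cardQQ (h : p.Ok) : (p.QQ.card : ℝ) ≤ 2 * p.Q :=
  card_le57 h.hQ (fun n hn => ⟨(h.hQQ n hn).2.1, (h.hQQ n hn).2.2.1⟩)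

lemma Ok.cardW (h : p.Ok) : (p.W.card : ℝ) ≤ 2 * p.P :=
  card_le57 h.hP (fun n hn => (h.hW n hn).2)

lemma Ok.L2 (h : p.Ok) : 2 ≤ p.L := by linarith [h.hL, h.hQ1]

lemma Ok.R0_one (h : p.Ok) : 1 ≤ p.R0 := by
  have h1 := h.hR0 1 le_rfl (by
    have a1 := h.hQ1
    have a2 := h.hQ
    have a3 := h.hP
    have a4 := h.L2
    have : 1 ≤ p.Q1 * p.Q * p.P := by
      have := mul_le_mul a1 a2 zero_le_one (by linarith)
      have := mul_le_mul this a3 zero_le_one (by positivity)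
      linarith
    push_cast
    nlinarith)
  simpa using h1

/-- monotonicity of `scb` -/
lemma scb_le (N V : ℕ) (C : ℝ) (om : ℕ) {P L Q K' : ℝ} (K : ℕ) (hP : 1 ≤ P) (hL : 1 ≤ L) (hQ : 1 ≤ Q)
    (hN : (N : ℝ) ≤ 8 * L * Q * P) (hV1 : L * Q ≤ V) (hV2 : (V : ℝ) ≤ 4 * L * Q) (hC : 0 ≤ C) (hCK : C ≤ K')
    (hom : om ≤ K + 1) :
    scb (2 * P) N (1 : ℕ) V P C om ≤
      2 * P * (8 * L * Q * P + 1) + 4 * P ^ 2 * ((8 / P + 1) * (K' * P) +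
        2 ^ (K + 4) * (16 * L * Q * P ^ 2) ^ (3 / 4 : ℝ) * (K' * P) ^ (1 / 4 : ℝ) *
          (1 + Real.log (16 * L * Q * P ^ 2))) := by
  unfold scb
  have hP0 : 0 < P := by linarith
  have hLQ : 1 ≤ L * Q := by nlinarith
  have hV0 : (0 : ℝ) < V := by linarith
  have hP2 : 1 ≤ P ^ 2 := by nlinarith
  have e1 : 4 * (V : ℝ) * P ^ 2 ≤ 16 * L * Q * P ^ 2 := by nlinarith
  have e0 : 1 ≤ 4 * (V : ℝ) * P ^ 2 := by nlinarith
  have e2 : (N : ℝ) / ((1 : ℕ) * V * P ^ 2) ≤ 8 / P := by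
    rw [div_le_div_iff₀ (by push_cast; positivity) hP0]
    push_cast
    have : (N : ℝ) * P ≤ 8 * L * Q * P * P := by nlinarith
    nlinarith
  have e3 : C * P ≤ K' * P := mul_le_mul_of_nonneg_right hCK hP0.le
  have e4 : 0 ≤ C * P := by positivity
  have e5 : 0 ≤ Real.log (4 * V * P ^ 2) := Real.log_nonneg e0
  have e6 : Real.log (4 * V * P ^ 2) ≤ Real.log (16 * L * Q * P ^ 2) :=
    Real.log_le_log (by linarith) e1
  have e7 : (4 * (V : ℝ) * P ^ 2) ^ (3 / 4 : ℝ) ≤ (16 * L * Q * P ^ 2) ^ (3 / 4 : ℝ) :=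
    Real.rpow_le_rpow (by linarith) e1 (by norm_num)
  have e8 : (C * P) ^ (1 / 4 : ℝ) ≤ (K' * P) ^ (1 / 4 : ℝ) := Real.rpow_le_rpow e4 e3 (by norm_num)
  have e9 : (2 : ℝ) ^ (om + 3) ≤ 2 ^ (K + 4) := pow_le_pow_right₀ (by norm_num) (by omega)
  have f1 : 2 * P * ((N : ℝ) / (1 : ℕ) + 1) ≤ 2 * P * (8 * L * Q * P + 1) := by
    push_cast
    rw [div_one]
    exact mul_le_mul_of_nonneg_left (by linarith) (by linarith)
  have f2 : ((N : ℝ) / ((1 : ℕ) * V * P ^ 2) + 1) * (C * P) ≤ (8 / P + 1) * (K' * P) := by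
    refine mul_le_mul (by linarith) e3 e4 (by positivity)
  have f3 : 2 ^ (om + 3) * (4 * (V : ℝ) * P ^ 2) ^ (3 / 4 : ℝ) * (C * P) ^ (1 / 4 : ℝ) *
      (1 + Real.log (4 * V * P ^ 2)) ≤ 2 ^ (K + 4) * (16 * L * Q * P ^ 2) ^ (3 / 4 : ℝ) *
        (K' * P) ^ (1 / 4 : ℝ) * (1 + Real.log (16 * L * Q * P ^ 2)) := by
    have g0 : 0 ≤ (4 * (V : ℝ) * P ^ 2) ^ (3 / 4 : ℝ) := by positivity
    have g1 : 0 ≤ (C * P) ^ (1 / 4 : ℝ) := by positivity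
    have g2 : 0 ≤ (16 * L * Q * P ^ 2) ^ (3 / 4 : ℝ) := g0.trans e7
    have g3 : 0 ≤ (K' * P) ^ (1 / 4 : ℝ) := g1.trans e8
    refine mul_le_mul (mul_le_mul (mul_le_mul e9 e7 g0 (by positivity)) e8 g1 (by positivity))
      (by linarith) (by linarith) (by positivity)
  have f4 : (2 * P) ^ 2 * (((N : ℝ) / ((1 : ℕ) * V * P ^ 2) + 1) * (C * P) +
      2 ^ (om + 3) * (4 * (V : ℝ) * P ^ 2) ^ (3 / 4 : ℝ) * (C * P) ^ (1 / 4 : ℝ) *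
      (1 + Real.log (4 * V * P ^ 2))) ≤ 4 * P ^ 2 * ((8 / P + 1) * (K' * P) +
        2 ^ (K + 4) * (16 * L * Q * P ^ 2) ^ (3 / 4 : ℝ) * (K' * P) ^ (1 / 4 : ℝ) *
          (1 + Real.log (16 * L * Q * P ^ 2))) := by
    have : (2 * P) ^ 2 = 4 * P ^ 2 := by ring
    rw [this]
    exact mul_le_mul_of_nonneg_left (add_le_add f2 f3) (by positivity)
  linarith

end Pool.Agent.Helper57.BG.PD
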