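import Pool.Agent.Helper57.BG.P5a

/-!
# P5, the core: one frequency `η`, one `j`, one `l`, one `q''`
-/

open Finset

namespace Pool.Agent.Helper57.BG.PD

variable {p : PD}

/-- the outer variables `(q1, qa, wa, l')` -/
noncomputable def XO (p : PD) : Finset (ℕ × ℕ × ℕ × ℕ) := p.Q1s ×ˢ p.QQ ×ˢ p.W ×ˢ p.LL

/-- the term -/
noncomputable def TT (p : PD) (η j : ℤ) (l q : ℕ) (x : ℕ × ℕ × ℕ × ℕ) (w : ℕ) : ℂ :=
  p.cc (x.2.1, x.2.2.1, l) * (starRingEnd ℂ) (p.cc (q, w, x.2.2.2)) *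
   (((FF (4 * p.M / p.Q1) η (((x.2.1 * x.2.2.1 : ℕ) : ℝ) * ((q * w : ℕ) : ℝ)) : ℝ) : ℂ) *
    ee (η * p.k / (l * x.1 * ((x.2.1 * x.2.2.1 : ℕ) : ℝ) * ((q * w : ℕ) : ℝ))) *
    ph (l * (q * w)) (-(η * p.k * j)) (x.2.2.2 * ((x.2.1 * x.2.2.1 : ℕ) : ℤ)))

/-- the condition -/
def Cnd (l q : ℕ) (x : ℕ × ℕ × ℕ × ℕ) (w : ℕ) : Prop :=
  ¬ l ∣ x.2.1 * x.2.2.1 ∧ ¬ x.2.2.2 ∣ q * w ∧ Nat.Coprime (x.2.1 * x.2.2.1) (q * w) ∧ l ≠ x.2.2.2 ∧
    ¬ l ∣ q * w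

/-- the outer condition -/
def Out (j : ℤ) (l q : ℕ) (x : ℕ × ℕ × ℕ × ℕ) : Prop :=
  (x.2.2.2 : ℤ) - l = x.1 * j ∧ ¬ l ∣ x.2.1 * x.2.2.1 ∧ ¬ x.2.2.2 ∣ q ∧
    Nat.Coprime (x.2.1 * x.2.2.1) q ∧ l ≠ x.2.2.2

lemma Ok.cnd_iff (h : p.Ok) {j : ℤ} {l q : ℕ} (hl : l ∈ p.LL) (hq : q ∈ p.QQ) (hlq : ¬ l ∣ q)
    {x : ℕ × ℕ × ℕ × ℕ} (hx : x ∈ p.XO) {w : ℕ} (hw : w ∈ p.W) :
    (Cnd l q x w ∧ (x.2.2.2 : ℤ) - l = x.1 * j) ↔
      (Out j l q x ∧ w ≠ l ∧ Nat.Coprime w (x.2.2.2 * (x.2.1 * x.2.2.1))) := by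
  obtain ⟨q1, qa, wa, l'⟩ := x
  simp only [XO, mem_product] at hx
  obtain ⟨h1, h2, h3, h4⟩ := hx
  have hlp := (h.hLL l hl).1
  have hlp' := (h.hLL l' h4).1
  have hwp := (h.hW w hw).1
  have hwq := h.hWQ w hw q hq
  have hwqa := h.hWQ w hw qa h2
  have e1 : ∀ r : ℕ, r.Prime → (¬ r ∣ q * w ↔ ¬ r ∣ q ∧ w ≠ r) := by
    intro r hr
    rw [hr.dvd_mul]
    have : r ∣ w ↔ w = r := by
      rw [Nat.prime_dvd_prime_iff_eq hr hwp]
      exact eq_comm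
    rw [this]
    tauto
  have e2 : Nat.Coprime (qa * wa) (q * w) ↔ Nat.Coprime (qa * wa) q ∧ Nat.Coprime (qa * wa) w :=
    Nat.coprime_mul_iff_right
  have e3 : Nat.Coprime w (l' * (qa * wa)) ↔ w ≠ l' ∧ Nat.Coprime (qa * wa) w := by
    rw [Nat.coprime_mul_iff_right, Nat.coprime_primes hwp hlp', Nat.coprime_comm (n := w) (m := qa * wa)]
  simp only [Cnd, Out]
  rw [e1 l' hlp', e1 l hlp, e2, e3]
  tauto

lemma Ok.q1_pos (h : p.Ok) {q1 : ℕ} (h1 : q1 ∈ p.Q1s) : 0 < q1 ∧ p.Q1 < q1 ∧ (q1 : ℝ) ≤ 2 * p.Q1 ∧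
    Int.gcd p.k q1 = 1 := by
  simp only [Q1s, mem_filter, mem_Ioc] at h1
  obtain ⟨⟨a1, a2⟩, a3⟩ := h1
  have b1 : p.Q1 < q1 := by
    have := Nat.lt_floor_add_one p.Q1
    have : ((⌊p.Q1⌋₊ + 1 : ℕ) : ℝ) ≤ q1 := by exact_mod_cast a1
    push_cast at this
    linarith
  have b2 : (q1 : ℝ) ≤ 2 * p.Q1 := by
    have h0 : 0 ≤ 2 * p.Q1 := by linarith [h.hQ1]
    have := Nat.floor_le h0
    have : (q1 : ℝ) ≤ (⌊2 * p.Q1⌋₊ : ℝ) := by exact_mod_cast a2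
    linarith
  refine ⟨by omega, b1, b2, a3⟩

/-- `q'' w` determines `q''` and `w` -/
lemma Ok.inj (h : p.Ok) {q w q' w' : ℕ} (hq : q ∈ p.QQ) (hw : w ∈ p.W) (hq' : q' ∈ p.QQ) (hw' : w' ∈ p.W)
    (he : q * w = q' * w') : q = q' ∧ w = w' := by
  have h1 := (h.hW w hw).1
  have h2 := (h.hW w' hw').1
  have h3 := h.hWQ w hw q' hq'
  have h4 : w ∣ q' * w' := by rw [← he]; exact dvd_mul_left w q
  have h5 : w ∣ w' := h3.dvd_of_dvd_mul_left h4
  have h6 : w = w' := (Nat.prime_dvd_prime_iff_eq h1 h2).1 h5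
  subst h6
  exact ⟨Nat.eq_of_mul_eq_mul_right h1.pos he, rfl⟩

lemma Ok.mult (h : p.Ok) {j : ℤ} (hj : j ≠ 0) {l q : ℕ} [DecidablePred (Out j l q)] (n : ℕ) :
    (((((p.XO).filter (Out j l q)).filter (fun x => x.2.2.2 * (x.2.1 * x.2.2.1) = n)).card : ℕ) : ℝ) ≤ p.R0 := by
  classical
  set S := (((p.XO).filter (Out j l q)).filter (fun x => x.2.2.2 * (x.2.1 * x.2.2.1) = n)) with hS
  rcases S.eq_empty_or_nonempty with he | ⟨x0, hx0⟩
  · rw [he]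
    simp only [card_empty, Nat.cast_zero]
    linarith [h.R0_one]
  · have hmem : ∀ x ∈ S, x ∈ p.XO ∧ (x.2.2.2 : ℤ) - l = x.1 * j ∧ x.2.2.2 * (x.2.1 * x.2.2.1) = n := by
      intro x hx
      rw [hS, mem_filter, mem_filter] at hx
      exact ⟨hx.1.1, hx.1.2.1, hx.2⟩
    have hn : 1 ≤ n ∧ (n : ℝ) ≤ 16 * p.L * (p.Q1 * p.Q * p.P) := by
      obtain ⟨a1, -, a3⟩ := hmem x0 hx0
      simp only [XO, mem_product] at a1
      obtain ⟨-, b2, b3, b4⟩ := a1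
      have c2 := h.hQQ _ b2
      have c3 := h.hW _ b3
      have c4 := h.hLL _ b4
      have d2 : (0 : ℝ) < x0.2.1 := by linarith [c2.2.1, h.hQ]
      have d3 : (0 : ℝ) < x0.2.2.1 := by linarith [c3.2.1, h.hP]
      have d4 : (0 : ℝ) < x0.2.2.2 := by linarith [c4.2.1, h.L2]
      have hn' : (n : ℝ) = x0.2.2.2 * (x0.2.1 * x0.2.2.1) := by rw [← a3]; push_cast; ring
      constructor
      · have : (0 : ℝ) < n := by rw [hn']; positivity
        exact_mod_cast this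
      · rw [hn']
        have hL := h.L2
        have hQ := h.hQ
        have hP := h.hP
        have g1 : (x0.2.1 : ℝ) * x0.2.2.1 ≤ (2 * p.Q) * (2 * p.P) :=
          mul_le_mul c2.2.2.1 c3.2.2 d3.le (by linarith)
        have g2 : (x0.2.2.2 : ℝ) * (x0.2.1 * x0.2.2.1) ≤ (2 * p.L) * ((2 * p.Q) * (2 * p.P)) :=
          mul_le_mul c4.2.2 g1 (by positivity) (by linarith)
        have g3 : p.L * (p.Q * p.P) ≤ p.L * (p.Q1 * p.Q * p.P) := by
          refine mul_le_mul_of_nonneg_left ?_ (by linarith)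
          have : 0 ≤ p.Q * p.P := by positivity
          nlinarith [h.hQ1]
        have g4 : 0 ≤ p.L * (p.Q * p.P) := by positivity
        nlinarith
    refine le_trans ?_ (h.hR0 n hn.1 hn.2)
    have : S.card ≤ n.divisors.card := by
      apply card_le_card_of_injOn (fun x => x.2.2.2)
      · intro x hx
        have := (hmem x hx).2.2
        simp only [coe_sort_coe, mem_coe, Nat.mem_divisors]
        exact ⟨⟨_, this.symm⟩, by omega⟩
      · intro x hx y hy hxy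
        obtain ⟨a1, a2, a3⟩ := hmem x hx
        obtain ⟨b1, b2, b3⟩ := hmem y hy
        obtain ⟨q1, qa, wa, l'⟩ := x
        obtain ⟨r1, ra, va, m'⟩ := y
        simp only at hxy a1 a2 a3 b1 b2 b3
        subst hxy
        simp only [XO, mem_product] at a1 b1
        have hl0 : 0 < l' := (h.hLL _ a1.2.2.2).1.pos
        have e1 : qa * wa = ra * va := Nat.eq_of_mul_eq_mul_left hl0 (a3.trans b3.symm)
        obtain ⟨e2, e3⟩ := h.inj a1.2.1 a1.2.2.1 b1.2.1 b1.2.2.1 e1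
        have e4 : (q1 : ℤ) * j = r1 * j := by rw [← a2, ← b2]
        have e5 : q1 = r1 := by exact_mod_cast mul_right_cancel₀ hj e4
        simp [e2, e3, e5]
    exact_mod_cast this

lemma Ok.cardX (h : p.Ok) {j : ℤ} (hj : j ≠ 0) {l q : ℕ} [DecidablePred (Out j l q)] :
    (((((p.XO).filter (Out j l q))).card : ℕ) : ℝ) ≤ 8 * p.L * p.Q * p.P := by
  classical
  have h1 : (((p.XO).filter (Out j l q))).card ≤ (p.QQ ×ˢ p.W ×ˢ p.LL).card := by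
    apply card_le_card_of_injOn (fun x => x.2)
    · intro x hx
      simp only [coe_filter, XO, mem_product, Set.mem_setOf_eq] at hx
      simp only [coe_product, Set.mem_prod, mem_coe]
      exact hx.1.2
    · intro x hx y hy hxy
      simp only [coe_filter, Set.mem_setOf_eq] at hx hy
      obtain ⟨q1, x'⟩ := x
      obtain ⟨r1, y'⟩ := y
      simp only at hxy
      subst hxy
      have e4 : (q1 : ℤ) * j = r1 * j := by rw [← hx.2.1, ← hy.2.1]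
      have e5 : q1 = r1 := by exact_mod_cast mul_right_cancel₀ hj e4
      simp [e5]
  rw [card_product, card_product] at h1
  have h2 := h.cardLL
  have h3 := h.cardQQ
  have h4 := h.cardW
  have hL := h.L2
  have hQ := h.hQ
  have hP := h.hP
  calc (((((p.XO).filter (Out j l q))).card : ℕ) : ℝ) ≤ ((p.QQ.card * (p.W.card * p.LL.card) : ℕ) : ℝ) := by
        exact_mod_cast h1
    _ = (p.QQ.card : ℝ) * (p.W.card * p.LL.card) := by push_cast; ring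
    _ ≤ (2 * p.Q) * ((2 * p.P) * (2 * p.L)) := by
        refine mul_le_mul h3 (mul_le_mul h4 h2 (by positivity) (by linarith)) (by positivity) (by linarith)
    _ = 8 * p.L * p.Q * p.P := by ring

end Pool.Agent.Helper57.BG.PD
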