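import Pool.Agent.Helper57.BG.P5b

/-!
# P5, the bound for one frequency `η`, one `j`, one `l`, one `q''`
-/

open Finset

namespace Pool.Agent.Helper57.BG.PD

variable {p : PD}

lemma ee_norm57 (x : ℝ) : ‖ee x‖ = 1 := by
  unfold ee
  rw [Complex.norm_exp]
  simp

lemma Ok.cc_le (h : p.Ok) (i : ℕ × ℕ × ℕ) : ‖p.cc i‖ ≤ 1 := by
  unfold cc
  rw [norm_mul, norm_mul]
  have h1 := h.hb i.1
  have h2 := h.hlam i.2.1
  have h3 := h.hbe i.2.2
  calc ‖p.b i.1‖ * ‖p.lam i.2.1‖ * ‖p.be i.2.2‖ ≤ 1 * 1 * 1 := by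
        refine mul_le_mul (mul_le_mul h1 h2 (norm_nonneg _) zero_le_one) h3 (norm_nonneg _) (by norm_num)
    _ = 1 := by norm_num

/-- the bound -/
noncomputable def KE (p : PD) : ℝ := (32 * p.M / (p.Q1 * (p.Q * p.P) ^ 2)) *
  Real.sqrt (48 * p.L * p.Q * p.P * p.R0 * p.scE)

lemma KE_nonneg (h : p.Ok) : 0 ≤ p.KE := by
  unfold KE
  have a1 := h.hQ1
  have a2 := h.hQ
  have a3 := h.hP
  have a4 := h.hM
  positivity

open Classical in
theorem core (hS : Stmt_SCF) (hF : Stmt_FFx) (h : p.Ok) (hH : (p.H : ℝ) * |(p.k : ℝ)| ≤ p.L)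
    {η j : ℤ} (hη : η ≠ 0) (hηH : |(η : ℝ)| ≤ p.H) (hj : j ≠ 0) (hjJ : |(j : ℝ)| ≤ p.J)
    {l q : ℕ} (hl : l ∈ p.LL) (hq : q ∈ p.QQ) :
    ‖∑ x ∈ p.XO, ∑ w ∈ p.W, (if Cnd l q x w ∧ (x.2.2.2 : ℤ) - l = x.1 * j then p.TT η j l q x w else 0)‖ ≤
      p.KE := by
  have hQ1 := h.hQ1
  have hQ := h.hQ
  have hP := h.hP
  have hM := h.hM
  have hL2 := h.L2
  by_cases hlq : l ∣ q
  · have : ∀ x ∈ p.XO, ∀ w ∈ p.W,
        (if Cnd l q x w ∧ (x.2.2.2 : ℤ) - l = x.1 * j then p.TT η j l q x w else 0) = 0 := by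
      intro x _ w _
      rw [if_neg]
      rintro ⟨hc, -⟩
      exact hc.2.2.2.2 (hlq.mul_right w)
    rw [sum_eq_zero (fun x hx => sum_eq_zero (fun w hw => this x hx w hw)), norm_zero]
    exact KE_nonneg h
  set X := (p.XO).filter (Out j l q) with hX
  set W' := p.W.filter (fun w => w ≠ l) with hW'
  set nn : ℕ × ℕ × ℕ × ℕ → ℕ := fun x => x.2.2.2 * (x.2.1 * x.2.2.1) with hnn
  set uu : ℕ × ℕ × ℕ × ℕ → ℝ := fun x => ((x.2.1 * x.2.2.1 : ℕ) : ℝ) * q with huu
  set th : ℕ × ℕ × ℕ × ℕ → ℝ := fun x => η * p.k / (l * x.1 * ((x.2.1 * x.2.2.1 : ℕ) : ℝ) * q) with hth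
  set F : ℕ × ℕ × ℕ × ℕ → ℝ → ℂ := fun x s =>
    ((FF (4 * p.M / p.Q1) η (uu x * s) : ℝ) : ℂ) * ee (th x / s) with hFdef
  set B : ℝ := 32 * p.M / (p.Q1 * (p.Q * p.P) ^ 2) with hB
  set c : ℤ := -(η * p.k * j) with hc
  have hlp := (h.hLL l hl).1
  have hl0 : (0 : ℝ) < l := by linarith [(h.hLL l hl).2.1]
  have hqq := h.hQQ q hq
  have hq0 : (0 : ℝ) < q := by linarith [hqq.2.1]
  -- the inner sum
  have step1 : ∀ x ∈ p.XO, ∑ w ∈ p.W,
      (if Cnd l q x w ∧ (x.2.2.2 : ℤ) - l = x.1 * j then p.TT η j l q x w else 0) =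
      if Out j l q x then
        (p.cc (x.2.1, x.2.2.1, l) * (starRingEnd ℂ) (p.b q * p.be x.2.2.2)) *
        ∑ w ∈ W'.filter (fun w => Nat.Coprime w (nn x)),
          (starRingEnd ℂ) (p.lam w) * F x w * ph (l * q * w) c (1 * nn x) else 0 := by
    intro x hx
    by_cases ho : Out j l q x
    · rw [if_pos ho, mul_sum]
      rw [← sum_filter]
      have hfil : p.W.filter (fun w => Cnd l q x w ∧ (x.2.2.2 : ℤ) - l = x.1 * j) =
          W'.filter (fun w => Nat.Coprime w (nn x)) := by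
        ext w
        simp only [mem_filter, hW']
        constructor
        · rintro ⟨h1, h2⟩
          have := (h.cnd_iff hl hq hlq hx h1).1 h2
          exact ⟨⟨h1, this.2.1⟩, this.2.2⟩
        · rintro ⟨⟨h1, h2⟩, h3⟩
          exact ⟨h1, (h.cnd_iff hl hq hlq hx h1).2 ⟨ho, h2, h3⟩⟩
      rw [hfil]
      refine sum_congr rfl (fun w hw => ?_)
      simp only [hW', mem_filter] at hw
      have hw0 : (0 : ℝ) < w := by linarith [(h.hW w hw.1.1).2.1]
      unfold TT
      have e1 : p.cc (q, w, x.2.2.2) = p.b q * p.lam w * p.be x.2.2.2 := rfl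
      have e2 : FF (4 * p.M / p.Q1) η (((x.2.1 * x.2.2.1 : ℕ) : ℝ) * ((q * w : ℕ) : ℝ)) =
          FF (4 * p.M / p.Q1) η (uu x * w) := by
        congr 1
        simp only [huu]
        push_cast
        ring
      have e3 : (η : ℝ) * p.k / (l * x.1 * ((x.2.1 * x.2.2.1 : ℕ) : ℝ) * ((q * w : ℕ) : ℝ)) = th x / w := by
        simp only [hth]
        rw [div_div]
        congr 1
        push_cast
        ring
      have e4 : ph (l * (q * w)) c (x.2.2.2 * ((x.2.1 * x.2.2.1 : ℕ) : ℤ)) =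
          ph (l * q * w) c (1 * (nn x : ℤ)) := by
        rw [← mul_assoc l q w]
        congr 1
        simp only [hnn]
        push_cast
        ring
      rw [e1, e2, e3, e4]
      simp only [map_mul, hFdef]
      ring
    · rw [if_neg ho]
      refine sum_eq_zero (fun w hw => ?_)
      rw [if_neg]
      intro h2
      exact ho ((h.cnd_iff hl hq hlq hx hw).1 h2).1
  rw [sum_congr rfl step1, ← sum_filter]
  -- bound
  have step2 : ‖∑ x ∈ (p.XO).filter (fun x => Out j l q x),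
      (p.cc (x.2.1, x.2.2.1, l) * (starRingEnd ℂ) (p.b q * p.be x.2.2.2)) *
        ∑ w ∈ W'.filter (fun w => Nat.Coprime w (nn x)),
          (starRingEnd ℂ) (p.lam w) * F x w * ph (l * q * w) c (1 * nn x)‖ ≤
      ∑ x ∈ X, ‖∑ w ∈ W'.filter (fun w => Nat.Coprime w (nn x)),
          (starRingEnd ℂ) (p.lam w) * F x w * ph (l * q * w) c (1 * nn x)‖ := by
    refine (norm_sum_le _ _).trans (sum_le_sum (fun x hx => ?_))
    rw [norm_mul]
    have h1 : ‖p.cc (x.2.1, x.2.2.1, l) * (starRingEnd ℂ) (p.b q * p.be x.2.2.2)‖ ≤ 1 := by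
      rw [norm_mul, RCLike.norm_conj, norm_mul]
      have a1 := h.cc_le (x.2.1, x.2.2.1, l)
      have a2 := h.hb q
      have a3 := h.hbe x.2.2.2
      calc _ ≤ (1 : ℝ) * (1 * 1) := by
            refine mul_le_mul a1 (mul_le_mul a2 a3 (norm_nonneg _) zero_le_one) (by positivity) zero_le_one
        _ = 1 := by norm_num
    exact mul_le_of_le_one_left (norm_nonneg _) h1
  refine step2.trans ?_
  have hWprops : ∀ w ∈ W', w ∈ p.W ∧ w ≠ l := fun w hw => by simpa [hW'] using hw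
  have hxprops : ∀ x ∈ X, x ∈ p.XO ∧ Out j l q x := fun x hx => by simpa [hX] using hx
  have hu : ∀ x ∈ X, p.Q * p.P * p.Q ≤ uu x ∧ 0 < uu x := by
    intro x hx
    obtain ⟨a1, -⟩ := hxprops x hx
    simp only [XO, mem_product] at a1
    have b1 := (h.hQQ _ a1.2.1).2.1
    have b2 := (h.hW _ a1.2.2.1).2.1
    have : p.Q * p.P ≤ ((x.2.1 * x.2.2.1 : ℕ) : ℝ) := by
      push_cast
      exact mul_le_mul b1.le b2.le (by linarith) (by positivity)
    have h3 : p.Q * p.P * p.Q ≤ uu x := by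
      simp only [huu]
      exact mul_le_mul this hqq.2.1.le (by linarith) (by positivity)
    refine ⟨h3, lt_of_lt_of_le (by positivity) h3⟩
  have hthb : ∀ x ∈ X, |th x| ≤ p.P := by
    intro x hx
    obtain ⟨a1, -⟩ := hxprops x hx
    have a1' := a1
    simp only [XO, mem_product] at a1
    have b1 := (h.hQQ _ a1.2.1).2.1
    have b2 := (h.hW _ a1.2.2.1).2.1
    have b3 := (h.q1_pos a1.1).2.1
    have b4 : p.L ≤ l := (h.hLL l hl).2.1.le
    have c1 : (1 : ℝ) ≤ ((x.2.1 * x.2.2.1 : ℕ) : ℝ) := by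
      push_cast
      nlinarith
    have c2 : p.L * 1 * 1 * 1 ≤ l * x.1 * ((x.2.1 * x.2.2.1 : ℕ) : ℝ) * q := by
      refine mul_le_mul (mul_le_mul (mul_le_mul b4 (by linarith) zero_le_one (by positivity)) c1 zero_le_one
        (by positivity)) (by linarith) zero_le_one (by positivity)
    have c3 : |(η : ℝ) * p.k| ≤ p.L := by
      rw [abs_mul]
      exact (mul_le_mul_of_nonneg_right hηH (abs_nonneg _)).trans hH
    simp only [hth]
    rw [abs_div, abs_of_pos (a := (l : ℝ) * x.1 * ((x.2.1 * x.2.2.1 : ℕ) : ℝ) * q) (by linarith)]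
    rw [div_le_iff₀ (by linarith)]
    nlinarith
  have hA : 0 ≤ 4 * p.M / p.Q1 := by positivity
  have hBu : ∀ x ∈ X, 8 * (4 * p.M / p.Q1) / (uu x * p.P) ≤ B := by
    intro x hx
    have h1 := (hu x hx).1
    have h2 := (hu x hx).2
    rw [hB]
    have : 8 * (4 * p.M / p.Q1) / (uu x * p.P) = 32 * p.M / (p.Q1 * (uu x * p.P)) := by
      field_simp
      ring
    rw [this]
    apply div_le_div_of_nonneg_left (by positivity) (by positivity)
    refine mul_le_mul_of_nonneg_left ?_ (by linarith)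
    nlinarith
  have key := hS W' p.P hP (fun w hw => (h.hW w (hWprops w hw).1)) (l * q) 1 ⌊8 * p.L * p.Q * p.P⌋₊
    (by
      rw [Nat.squarefree_mul_iff]
      exact ⟨(Nat.Prime.coprime_iff_not_dvd hlp).2 hlq, hlp.squarefree, hqq.1⟩)
    one_pos (Nat.coprime_one_left _)
    (fun w hw => by
      have := hWprops w hw
      exact Nat.Coprime.mul_right ((Nat.coprime_primes (h.hW w this.1).1 hlp).2 this.2)
        (h.hWQ w this.1 q hq))
    (fun w _ => Nat.coprime_one_right _) c 1 0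
    (by
      rw [hc]
      exact neg_ne_zero.2 (mul_ne_zero (mul_ne_zero hη h.hk0) hj))
    (by simp) (fun w _ => by simp)
    (fun w => (starRingEnd ℂ) (p.lam w)) (fun w => by rw [RCLike.norm_conj]; exact h.hlam w)
    X nn p.R0 B
    (by
      intro x hx
      obtain ⟨a1, a2⟩ := hxprops x hx
      simp only [XO, mem_product] at a1
      have c2 := h.hQQ _ a1.2.1
      have c3 := h.hW _ a1.2.2.1
      have c4 := h.hLL _ a1.2.2.2
      have d2 : (0 : ℝ) < x.2.1 := by linarith [c2.2.1]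
      have d3 : (0 : ℝ) < x.2.2.1 := by linarith [c3.2.1]
      have d4 : (0 : ℝ) < x.2.2.2 := by linarith [c4.2.1]
      refine ⟨?_, ?_, Nat.modEq_one, ?_⟩
      · have : (0 : ℝ) < (nn x : ℕ) := by simp only [hnn]; push_cast; positivity
        exact_mod_cast this
      · apply Nat.le_floor
        simp only [hnn]
        push_cast
        have g1 : (x.2.1 : ℝ) * x.2.2.1 ≤ (2 * p.Q) * (2 * p.P) :=
          mul_le_mul c2.2.2.1 c3.2.2 d3.le (by linarith)
        have g2 : (x.2.2.2 : ℝ) * (x.2.1 * x.2.2.1) ≤ (2 * p.L) * ((2 * p.Q) * (2 * p.P)) :=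
          mul_le_mul c4.2.2 g1 (by positivity) (by linarith)
        linarith
      · obtain ⟨-, o2, o3, o4, o5⟩ := a2
        simp only [hnn]
        have f1 : Nat.Coprime x.2.2.2 l := (Nat.coprime_primes c4.1 hlp).2 (Ne.symm o5)
        have f2 : Nat.Coprime x.2.2.2 q := (Nat.Prime.coprime_iff_not_dvd c4.1).2 o3
        have f3 : Nat.Coprime (x.2.1 * x.2.2.1) l := ((Nat.Prime.coprime_iff_not_dvd hlp).2 o2).symm
        exact Nat.Coprime.mul_left (Nat.Coprime.mul_right f1 f2) (Nat.Coprime.mul_right f3 o4))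
    (fun n => h.mult hj n)
    F
    (by
      intro x hx s hs1 hs2
      have := (hF (4 * p.M / p.Q1) (uu x) p.P (th x) hA (hu x hx).2 hP (hthb x hx) η).1 s hs1 hs2
      exact this.trans (hBu x hx))
    (by
      intro x hx s t hs1 hs2 ht1 ht2
      have := (hF (4 * p.M / p.Q1) (uu x) p.P (th x) hA (hu x hx).2 hP (hthb x hx) η).2 s t hs1 hs2 ht1 ht2
      refine this.trans ?_
      have hb := hBu x hx
      gcongr)
  have hscb : scb (2 * p.P) (⌊8 * p.L * p.Q * p.P⌋₊ : ℕ) (1 : ℕ) ((l * q : ℕ) : ℝ) p.P |(c : ℝ)|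
      (l * q).primeFactors.card ≤ p.scE := by
    unfold scE
    refine scb_le _ _ _ _ _ hP (by linarith) hQ ?_ ?_ ?_ (abs_nonneg _) ?_ ?_
    · exact Nat.floor_le (by positivity)
    · push_cast
      exact mul_le_mul (h.hLL l hl).2.1.le hqq.2.1.le (by linarith) hl0.le
    · push_cast
      calc (l : ℝ) * q ≤ (2 * p.L) * (2 * p.Q) :=
            mul_le_mul (h.hLL l hl).2.2 hqq.2.2.1 hq0.le (by linarith)
        _ = 4 * p.L * p.Q := by ring
    · rw [hc]
      push_cast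
      rw [abs_neg, abs_mul, abs_mul]
      calc |(η : ℝ)| * |(p.k : ℝ)| * |(j : ℝ)| ≤ p.H * |(p.k : ℝ)| * p.J := by
            refine mul_le_mul (mul_le_mul_of_nonneg_right hηH (abs_nonneg _)) hjJ (abs_nonneg _) (by positivity)
        _ = p.H * p.J * |(p.k : ℝ)| := by ring
    · have hcop : Nat.Coprime l q := (Nat.Prime.coprime_iff_not_dvd hlp).2 hlq
      rw [hcop.primeFactors_mul, card_union_of_disjoint hcop.disjoint_primeFactors, hlp.primeFactors,
        card_singleton]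
      have := hqq.2.2.2.1
      omega
  have hcard := h.cardX hj (l := l) (q := q)
  have hR0 := h.R0_one
  set A := ∑ x ∈ X, ‖∑ w ∈ W'.filter (fun w => Nat.Coprime w (nn x)),
          (starRingEnd ℂ) (p.lam w) * F x w * ph (l * q * w) c (1 * nn x)‖ with hAdef
  have hA0 : 0 ≤ A := sum_nonneg (fun x _ => norm_nonneg _)
  have hB0 : 0 ≤ B := by rw [hB]; positivity
  have hscE : 0 ≤ p.scE := by
    refine le_trans ?_ hscb
    unfold scb
    have : 1 ≤ 4 * ((l * q : ℕ) : ℝ) * p.P ^ 2 := by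
      push_cast
      have h1 : (1 : ℝ) ≤ l := by linarith [(h.hLL l hl).2.1]
      have h2 : (1 : ℝ) ≤ q := by linarith [hqq.2.1]
      have h3 : 1 ≤ p.P ^ 2 := by nlinarith
      have h4 : 1 ≤ (l : ℝ) * q := by nlinarith
      nlinarith
    have := Real.log_nonneg this
    positivity
  have hfin : A ^ 2 ≤ B ^ 2 * (48 * p.L * p.Q * p.P * p.R0 * p.scE) := by
    refine key.trans ?_
    have h1 : 6 * B ^ 2 * p.R0 * scb (2 * p.P) (⌊8 * p.L * p.Q * p.P⌋₊ : ℕ) (1 : ℕ) ((l * q : ℕ) : ℝ) p.P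
        |(c : ℝ)| (l * q).primeFactors.card ≤ 6 * B ^ 2 * p.R0 * p.scE :=
      mul_le_mul_of_nonneg_left hscb (by positivity)
    calc _ ≤ (X.card : ℝ) * (6 * B ^ 2 * p.R0 * p.scE) :=
          mul_le_mul_of_nonneg_left h1 (by positivity)
      _ ≤ (8 * p.L * p.Q * p.P) * (6 * B ^ 2 * p.R0 * p.scE) :=
          mul_le_mul_of_nonneg_right hcard (by positivity)
      _ = B ^ 2 * (48 * p.L * p.Q * p.P * p.R0 * p.scE) := by ring
  unfold KE
  rw [← hB]
  have h2 : A ≤ Real.sqrt (B ^ 2 * (48 * p.L * p.Q * p.P * p.R0 * p.scE)) := Real.le_sqrt_of_sq_le hfin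
  rwa [Real.sqrt_mul (sq_nonneg _), Real.sqrt_sq hB0] at h2

end Pool.Agent.Helper57.BG.PD
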